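import Mathlib

/-!
# Short intervals to the left of the Farey fractions of order `Q`
-/

open Finset MeasureTheory

namespace Pool.Agent.Helper76.EM

/-- pairs `(a, q)` with `1 ≤ a ≤ q ≤ Q` and `(a, q) = 1` -/
def FQ (Q : ℕ) : Finset (ℕ × ℕ) :=
  (Icc 1 Q ×ˢ Icc 1 Q).filter (fun p => p.1 ≤ p.2 ∧ Nat.Coprime p.1 p.2)

lemma mem_FQ {Q : ℕ} {p : ℕ × ℕ} :
    p ∈ FQ Q ↔ 1 ≤ p.1 ∧ p.1 ≤ p.2 ∧ p.2 ≤ Q ∧ Nat.Coprime p.1 p.2 := by
  unfold FQ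
  rw [Finset.mem_filter, Finset.mem_product, Finset.mem_Icc, Finset.mem_Icc]
  constructor
  · rintro ⟨⟨⟨h1, h2⟩, h3, h4⟩, h5, h6⟩
    exact ⟨h1, h5, h4, h6⟩
  · rintro ⟨h1, h2, h3, h4⟩
    exact ⟨⟨⟨h1, by omega⟩, by omega, h3⟩, h2, h4⟩

lemma sum_inv_sq (Q : ℕ) : ∑ d ∈ Icc 2 Q, (1:ℝ) / (d:ℝ) ^ 2 ≤ 3 / 4 := by
  rcases Nat.lt_or_ge Q 2 with h | h
  · have : Icc 2 Q = ∅ := Finset.Icc_eq_empty (by omega)
    rw [this, Finset.sum_empty]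
    norm_num
  · have h2 : ∀ n : ℕ, 2 ≤ n → ∑ d ∈ Icc 2 n, (1:ℝ) / (d:ℝ) ^ 2 ≤ 3 / 4 - 1 / (n:ℝ) := by
      intro n hn
      induction n, hn using Nat.le_induction with
      | base =>
        norm_num [Finset.Icc_self]
      | succ n hn ih =>
        rw [Finset.sum_Icc_succ_top (by omega)]
        have hn' : (0:ℝ) < n := by
          have : 0 < n := by omega
          exact_mod_cast this
        have h3 : (1:ℝ) / (((n + 1 : ℕ) : ℝ)) ^ 2 ≤ 1 / (n:ℝ) - 1 / ((n + 1 : ℕ) : ℝ) := by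
          have h4 : 1 / (n:ℝ) - 1 / ((n + 1 : ℕ) : ℝ) = 1 / ((n:ℝ) * ((n + 1 : ℕ) : ℝ)) := by
            push_cast
            field_simp
            ring
          rw [h4]
          apply one_div_le_one_div_of_le
          · positivity
          · push_cast
            nlinarith
        linarith
    have := h2 Q h
    have h3 : (0:ℝ) ≤ 1 / (Q:ℝ) := by positivity
    linarith

lemma card_FQ (Q : ℕ) : (Q:ℝ) ^ 2 / 8 ≤ ((FQ Q).card : ℝ) := by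
  classical
  set A : Finset (ℕ × ℕ) := Icc 1 Q ×ˢ Icc 1 Q with hA
  set G : Finset (ℕ × ℕ) := A.filter (fun p => Nat.Coprime p.1 p.2) with hG
  -- the pairs with a common divisor
  have hcov : A ⊆ G ∪ (Icc 2 Q).biUnion (fun d => ((Icc 1 Q).filter (fun n => d ∣ n)) ×ˢ ((Icc 1 Q).filter (fun n => d ∣ n))) := by
    rintro ⟨a, b⟩ hp
    have hp' := hp
    rw [hA, Finset.mem_product, Finset.mem_Icc, Finset.mem_Icc] at hp'
    obtain ⟨⟨ha1, ha2⟩, hb1, hb2⟩ := hp'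
    simp only at ha1 ha2 hb1 hb2
    by_cases hc : Nat.Coprime a b
    · exact Finset.mem_union_left _ (Finset.mem_filter.2 ⟨hp, hc⟩)
    · apply Finset.mem_union_right
      rw [Finset.mem_biUnion]
      refine ⟨Nat.gcd a b, ?_, ?_⟩
      · rw [Finset.mem_Icc]
        have h1 : Nat.gcd a b ≠ 1 := hc
        have h2 : 0 < Nat.gcd a b := Nat.gcd_pos_of_pos_left _ (by omega)
        have h3 : Nat.gcd a b ≤ a := Nat.gcd_le_left _ (by omega)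
        omega
      · rw [Finset.mem_product, Finset.mem_filter, Finset.mem_filter, Finset.mem_Icc, Finset.mem_Icc]
        exact ⟨⟨⟨ha1, ha2⟩, Nat.gcd_dvd_left _ _⟩, ⟨hb1, hb2⟩, Nat.gcd_dvd_right _ _⟩
  have hcardA : A.card = Q * Q := by
    rw [hA, Finset.card_product, Nat.card_Icc]
    simp
  have hmult : ∀ d : ℕ, ((Icc 1 Q).filter (fun n => d ∣ n)).card = Q / d := by
    intro d
    have h1 : Icc 1 Q = Ioc 0 Q := by
      ext x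
      simp only [Finset.mem_Icc, Finset.mem_Ioc]
      omega
    rw [h1]
    exact Nat.Ioc_filter_dvd_card_eq_div Q d
  have h1 : (Q * Q : ℕ) ≤ G.card + ∑ d ∈ Icc 2 Q, (Q / d) * (Q / d) := by
    rw [← hcardA]
    refine (Finset.card_le_card hcov).trans ((Finset.card_union_le _ _).trans ?_)
    refine Nat.add_le_add_left ?_ _
    refine Finset.card_biUnion_le.trans (le_of_eq ?_)
    refine Finset.sum_congr rfl fun d _ => ?_
    rw [Finset.card_product, hmult]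
  have h2 : (Q:ℝ) ^ 2 ≤ (G.card : ℝ) + (3/4) * (Q:ℝ) ^ 2 := by
    have h3 : ((Q * Q : ℕ) : ℝ) ≤ ((G.card + ∑ d ∈ Icc 2 Q, (Q / d) * (Q / d) : ℕ) : ℝ) := by
      exact_mod_cast h1
    push_cast at h3
    have h4 : ∑ d ∈ Icc 2 Q, ((Q / d : ℕ) : ℝ) * ((Q / d : ℕ) : ℝ) ≤ (3/4) * (Q:ℝ) ^ 2 := by
      calc ∑ d ∈ Icc 2 Q, ((Q / d : ℕ) : ℝ) * ((Q / d : ℕ) : ℝ)
          ≤ ∑ d ∈ Icc 2 Q, (Q:ℝ) ^ 2 * (1 / (d:ℝ) ^ 2) := by
            refine Finset.sum_le_sum fun d _ => ?_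
            have h5 : ((Q / d : ℕ) : ℝ) ≤ (Q:ℝ) / d := Nat.cast_div_le
            calc ((Q / d : ℕ) : ℝ) * ((Q / d : ℕ) : ℝ) ≤ ((Q:ℝ) / d) * ((Q:ℝ) / d) := by gcongr
              _ = (Q:ℝ) ^ 2 * (1 / (d:ℝ) ^ 2) := by ring
        _ = (Q:ℝ) ^ 2 * ∑ d ∈ Icc 2 Q, 1 / (d:ℝ) ^ 2 := by rw [Finset.mul_sum]
        _ ≤ (Q:ℝ) ^ 2 * (3/4) := by
            gcongr
            exact sum_inv_sq Q
        _ = (3/4) * (Q:ℝ) ^ 2 := by ring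
    nlinarith
  have h3 : G ⊆ FQ Q ∪ (FQ Q).image Prod.swap := by
    rintro ⟨a, b⟩ hp
    rw [hG, Finset.mem_filter, hA, Finset.mem_product, Finset.mem_Icc, Finset.mem_Icc] at hp
    obtain ⟨⟨⟨ha1, ha2⟩, hb1, hb2⟩, hc⟩ := hp
    simp only at ha1 ha2 hb1 hb2 hc
    rcases le_total a b with h | h
    · exact Finset.mem_union_left _ (mem_FQ.2 ⟨ha1, h, hb2, hc⟩)
    · refine Finset.mem_union_right _ (Finset.mem_image.2 ⟨(b, a), mem_FQ.2 ⟨hb1, h, ha2, hc.symm⟩, rfl⟩)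
  have h4 : G.card ≤ (FQ Q).card + (FQ Q).card :=
    (Finset.card_le_card h3).trans ((Finset.card_union_le _ _).trans
      (Nat.add_le_add_left Finset.card_image_le _))
  have h5 : (G.card : ℝ) ≤ (FQ Q).card + (FQ Q).card := by exact_mod_cast h4
  linarith

/-- the union of the intervals of length `η` to the left of the fractions `a/q`, `(a,q) ∈ FQ Q` -/
def MJ (Q : ℕ) (η : ℝ) : Set ℝ := ⋃ p ∈ FQ Q, Set.Ico ((p.1:ℝ) / p.2 - η) ((p.1:ℝ) / p.2)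

lemma MJ_meas (Q : ℕ) (η : ℝ) : MeasurableSet (MJ Q η) := by
  unfold MJ
  exact Finset.measurableSet_biUnion _ fun p _ => measurableSet_Ico

lemma mem_MJ {Q : ℕ} {η β : ℝ} (h : β ∈ MJ Q η) :
    ∃ a q : ℕ, 1 ≤ q ∧ q ≤ Q ∧ |β - (a:ℝ) / q| ≤ η := by
  unfold MJ at h
  rw [Set.mem_iUnion₂] at h
  obtain ⟨p, hp, h1, h2⟩ := h
  rw [mem_FQ] at hp
  refine ⟨p.1, p.2, by omega, hp.2.2.1, ?_⟩
  rw [abs_le]
  constructor <;> linarith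

lemma MJ_subset {Q : ℕ} {η : ℝ} (hη : η * Q ≤ 1) : MJ Q η ⊆ Set.Ico 0 1 := by
  intro β h
  unfold MJ at h
  rw [Set.mem_iUnion₂] at h
  obtain ⟨p, hp, h1, h2⟩ := h
  rw [mem_FQ] at hp
  obtain ⟨hp1, hp2, hp3, hp4⟩ := hp
  have hq : (0:ℝ) < p.2 := by
    have : 0 < p.2 := by omega
    exact_mod_cast this
  have ha : (1:ℝ) ≤ p.1 := by exact_mod_cast hp1
  have haq : (p.1:ℝ) ≤ p.2 := by exact_mod_cast hp2
  have hqQ : (p.2:ℝ) ≤ Q := by exact_mod_cast hp3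
  constructor
  · refine le_trans ?_ h1
    have h3 : η ≤ 1 / (p.2:ℝ) := by
      rw [le_div_iff₀ hq]
      by_cases h0 : 0 ≤ η
      · calc η * p.2 ≤ η * Q := by gcongr
          _ ≤ 1 := hη
      · push Not at h0
        nlinarith
    have h4 : 1 / (p.2:ℝ) ≤ (p.1:ℝ) / p.2 := by gcongr
    linarith
  · refine lt_of_lt_of_le h2 ?_
    rw [div_le_one hq]
    exact haq

lemma FQ_sep {Q : ℕ} {p p' : ℕ × ℕ} (hp : p ∈ FQ Q) (hp' : p' ∈ FQ Q)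
    (h : (p.1:ℝ) / p.2 < (p'.1:ℝ) / p'.2) : 1 / (Q:ℝ) ^ 2 ≤ (p'.1:ℝ) / p'.2 - (p.1:ℝ) / p.2 := by
  rw [mem_FQ] at hp hp'
  obtain ⟨a1, a2, a3, a4⟩ := hp
  obtain ⟨b1, b2, b3, b4⟩ := hp'
  have hq : (0:ℝ) < p.2 := by
    have : 0 < p.2 := by omega
    exact_mod_cast this
  have hq' : (0:ℝ) < p'.2 := by
    have : 0 < p'.2 := by omega
    exact_mod_cast this
  have hqQ : (p.2:ℝ) ≤ Q := by exact_mod_cast a3
  have hqQ' : (p'.2:ℝ) ≤ Q := by exact_mod_cast b3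
  have h1 : (p.1:ℝ) * p'.2 < p'.1 * p.2 := by
    rwa [div_lt_div_iff₀ hq hq'] at h
  have h2 : p.1 * p'.2 < p'.1 * p.2 := by exact_mod_cast h1
  have h3 : (p.1:ℝ) * p'.2 + 1 ≤ p'.1 * p.2 := by
    have : p.1 * p'.2 + 1 ≤ p'.1 * p.2 := h2
    exact_mod_cast this
  have h4 : (p'.1:ℝ) / p'.2 - (p.1:ℝ) / p.2 = ((p'.1:ℝ) * p.2 - p.1 * p'.2) / (p'.2 * p.2) := by
    field_simp
  rw [h4]
  calc 1 / (Q:ℝ) ^ 2 ≤ 1 / ((p'.2:ℝ) * p.2) := by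
        apply one_div_le_one_div_of_le (by positivity)
        calc (p'.2:ℝ) * p.2 ≤ Q * Q := by gcongr
          _ = (Q:ℝ) ^ 2 := by ring
    _ ≤ ((p'.1:ℝ) * p.2 - p.1 * p'.2) / (p'.2 * p.2) := by
        gcongr
        linarith

lemma FQ_inj {Q : ℕ} {p p' : ℕ × ℕ} (hp : p ∈ FQ Q) (hp' : p' ∈ FQ Q)
    (h : (p.1:ℝ) / p.2 = (p'.1:ℝ) / p'.2) : p = p' := by
  rw [mem_FQ] at hp hp'
  obtain ⟨a1, a2, a3, a4⟩ := hp
  obtain ⟨b1, b2, b3, b4⟩ := hp'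
  have hq : (0:ℝ) < p.2 := by
    have : 0 < p.2 := by omega
    exact_mod_cast this
  have hq' : (0:ℝ) < p'.2 := by
    have : 0 < p'.2 := by omega
    exact_mod_cast this
  have h1 : (p.1:ℝ) * p'.2 = p'.1 * p.2 := by
    rwa [div_eq_div_iff hq.ne' hq'.ne'] at h
  have h2 : p.1 * p'.2 = p'.1 * p.2 := by exact_mod_cast h1
  have h3 : p.1 ∣ p'.1 := by
    have : p.1 ∣ p'.1 * p.2 := ⟨p'.2, h2.symm⟩
    exact a4.dvd_of_dvd_mul_right this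
  have h4 : p'.1 ∣ p.1 := by
    have : p'.1 ∣ p.1 * p'.2 := ⟨p.2, h2⟩
    exact b4.dvd_of_dvd_mul_right this
  have h5 : p.1 = p'.1 := Nat.dvd_antisymm h3 h4
  have h6 : p.2 = p'.2 := by
    rw [h5] at h2
    exact (Nat.eq_of_mul_eq_mul_left (by omega) h2).symm
  exact Prod.ext h5 h6

lemma MJ_disjoint {Q : ℕ} {η : ℝ} (hη : η * (Q:ℝ) ^ 2 ≤ 1) :
    Set.PairwiseDisjoint (↑(FQ Q)) (fun p : ℕ × ℕ => Set.Ico ((p.1:ℝ) / p.2 - η) ((p.1:ℝ) / p.2)) := by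
  have key : ∀ p ∈ FQ Q, ∀ p' ∈ FQ Q, (p.1:ℝ) / p.2 < (p'.1:ℝ) / p'.2 →
      Disjoint (Set.Ico ((p.1:ℝ) / p.2 - η) ((p.1:ℝ) / p.2)) (Set.Ico ((p'.1:ℝ) / p'.2 - η) ((p'.1:ℝ) / p'.2)) := by
    intro p hp p' hp' h
    rw [Set.disjoint_left]
    intro x hx hx'
    have h1 := FQ_sep hp hp' h
    have hQ : (0:ℝ) < (Q:ℝ) ^ 2 := by
      have h2 := mem_FQ.1 hp
      have : 0 < Q := by omega
      positivity
    have h2 : η ≤ 1 / (Q:ℝ) ^ 2 := by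
      rw [le_div_iff₀ hQ]
      exact hη
    have h3 := hx.2
    have h4 := hx'.1
    linarith
  intro p hp p' hp' hne
  have hp1 : p ∈ FQ Q := hp
  have hp1' : p' ∈ FQ Q := hp'
  rcases lt_trichotomy ((p.1:ℝ) / p.2) ((p'.1:ℝ) / p'.2) with h | h | h
  · exact key p hp1 p' hp1' h
  · exact absurd (FQ_inj hp1 hp1' h) hne
  · exact (key p' hp1' p hp1 h).symm

lemma MJ_volume {Q : ℕ} {η : ℝ} (hη0 : 0 ≤ η) (hη : η * (Q:ℝ) ^ 2 ≤ 1) :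
    (volume (MJ Q η)).toReal = (FQ Q).card * η := by
  unfold MJ
  rw [measure_biUnion_finset (MJ_disjoint hη) (fun p _ => measurableSet_Ico)]
  have h1 : ∀ p ∈ FQ Q, volume (Set.Ico ((p.1:ℝ) / p.2 - η) ((p.1:ℝ) / p.2)) = ENNReal.ofReal η := by
    intro p _
    rw [Real.volume_Ico]
    congr 1
    ring
  rw [Finset.sum_congr rfl h1, Finset.sum_const, nsmul_eq_mul, ENNReal.toReal_mul,
    ENNReal.toReal_ofReal hη0]
  simp

end Pool.Agent.Helper76.EM
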