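import Mathlib

/-!
# Quadratic Weyl sums: the second and the fourth moment in the linear variable
-/

open Finset MeasureTheory

namespace Pool.Agent.Helper76.EM

/-- the additive character `e(t) = exp(2πit)` -/
noncomputable def ee (t : ℝ) : ℂ := Complex.exp ((2 * Real.pi * t : ℝ) * Complex.I)

lemma ee_add (s t : ℝ) : ee (s + t) = ee s * ee t := by
  unfold ee
  rw [← Complex.exp_add]
  congr 1
  push_cast
  ring

lemma ee_zero : ee 0 = 1 := by
  unfold ee
  simp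

lemma ee_neg (t : ℝ) : ee (-t) = (starRingEnd ℂ) (ee t) := by
  unfold ee
  rw [← Complex.exp_conj]
  congr 1
  rw [map_mul, Complex.conj_I, Complex.conj_ofReal]
  push_cast
  ring

lemma ee_sub (s t : ℝ) : ee (s - t) = ee s * (starRingEnd ℂ) (ee t) := by
  rw [sub_eq_add_neg, ee_add, ee_neg]

lemma norm_ee (t : ℝ) : ‖ee t‖ = 1 := by
  unfold ee
  exact Complex.norm_exp_ofReal_mul_I _

lemma ee_re (t : ℝ) : (ee t).re = Real.cos (2 * Real.pi * t) := by
  unfold ee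
  exact Complex.exp_ofReal_mul_I_re _

lemma ee_int (n : ℤ) : ee n = 1 := by
  unfold ee
  have := Complex.exp_int_mul_two_pi_mul_I n
  rw [← this]
  congr 1
  push_cast
  ring

lemma ee_continuous : Continuous ee := by
  unfold ee
  fun_prop

/-- orthogonality -/
lemma orth (n : ℤ) : ∫ α in (0:ℝ)..1, ee (n * α) = if n = 0 then 1 else 0 := by
  by_cases hn : n = 0
  · subst hn
    simp [ee_zero]
  · rw [if_neg hn]
    have hc : (2 * Real.pi * n : ℂ) * Complex.I ≠ 0 := by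
      simp [hn, Real.pi_ne_zero]
    have h1 : ∀ α : ℝ, ee (n * α) = Complex.exp (((2 * Real.pi * n : ℂ) * Complex.I) * α) := by
      intro α
      unfold ee
      congr 1
      push_cast
      ring
    simp_rw [h1]
    rw [integral_exp_mul_complex hc]
    have h2 := Complex.exp_int_mul_two_pi_mul_I n
    have h3 : (2 * Real.pi * n : ℂ) * Complex.I * ((1 : ℝ) : ℂ) = n * (2 * Real.pi * Complex.I) := by
      push_cast
      ring
    rw [h3, h2]
    simp

/-- a trigonometric polynomial with repeated frequencies -/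
noncomputable def TP {ι : Type*} (s : Finset ι) (n : ι → ℤ) (w : ι → ℂ) (α : ℝ) : ℂ :=
  ∑ i ∈ s, w i * ee (n i * α)

lemma TP_continuous {ι : Type*} (s : Finset ι) (n : ι → ℤ) (w : ι → ℂ) : Continuous (TP s n w) := by
  unfold TP
  have := ee_continuous
  fun_prop

lemma TP_sq {ι : Type*} (s : Finset ι) (n : ι → ℤ) (w : ι → ℂ) (α : ℝ) :
    ((‖TP s n w α‖ ^ 2 : ℝ) : ℂ) =
      ∑ i ∈ s, ∑ j ∈ s, (w i * (starRingEnd ℂ) (w j)) * ee (((n i - n j : ℤ) : ℝ) * α) := by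
  have h1 : ((‖TP s n w α‖ ^ 2 : ℝ) : ℂ) = TP s n w α * (starRingEnd ℂ) (TP s n w α) := by
    rw [Complex.mul_conj, Complex.normSq_eq_norm_sq]
  rw [h1]
  unfold TP
  rw [map_sum, Finset.sum_mul_sum]
  refine Finset.sum_congr rfl fun i _ => Finset.sum_congr rfl fun j _ => ?_
  have : ((n i - n j : ℤ) : ℝ) * α = n i * α - n j * α := by
    push_cast
    ring
  rw [this, ee_sub, map_mul]
  ring

/-- Parseval, double sum form -/
lemma TP_parseval {ι : Type*} (s : Finset ι) (n : ι → ℤ) (w : ι → ℂ) :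
    ((∫ α in (0:ℝ)..1, ‖TP s n w α‖ ^ 2 : ℝ) : ℂ) =
      ∑ i ∈ s, ∑ j ∈ s, (w i * (starRingEnd ℂ) (w j)) * (if n i = n j then 1 else 0) := by
  rw [← intervalIntegral.integral_ofReal]
  simp_rw [TP_sq]
  rw [intervalIntegral.integral_finsetSum]
  · refine Finset.sum_congr rfl fun i _ => ?_
    rw [intervalIntegral.integral_finsetSum]
    · refine Finset.sum_congr rfl fun j _ => ?_
      rw [intervalIntegral.integral_const_mul, orth]
      simp only [sub_eq_zero]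
    · intro j _
      apply Continuous.intervalIntegrable
      have := ee_continuous
      fun_prop
  · intro i _
    apply Continuous.intervalIntegrable
    have := ee_continuous
    fun_prop

/-- the coefficient at the frequency `h` -/
noncomputable def cf {ι : Type*} (s : Finset ι) (n : ι → ℤ) (w : ι → ℂ) (h : ℤ) : ℂ :=
  ∑ i ∈ s with n i = h, w i

lemma TP_bessel {ι : Type*} (s : Finset ι) (n : ι → ℤ) (w : ι → ℂ) (S : Finset ℤ) :
    ∑ h ∈ S, ‖cf s n w h‖ ^ 2 ≤ ∫ α in (0:ℝ)..1, ‖TP s n w α‖ ^ 2 := by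
  classical
  set T : Finset ℤ := S ∪ s.image n with hT
  have h1 : ∑ h ∈ S, ‖cf s n w h‖ ^ 2 ≤ ∑ h ∈ T, ‖cf s n w h‖ ^ 2 :=
    Finset.sum_le_sum_of_subset_of_nonneg Finset.subset_union_left (fun _ _ _ => by positivity)
  refine h1.trans (le_of_eq ?_)
  have h2 : ((∑ h ∈ T, ‖cf s n w h‖ ^ 2 : ℝ) : ℂ) = ((∫ α in (0:ℝ)..1, ‖TP s n w α‖ ^ 2 : ℝ) : ℂ) := by
    rw [TP_parseval]
    push_cast
    have h3 : ∀ h ∈ T, ((‖cf s n w h‖ : ℂ) ^ 2) =
        ∑ i ∈ s, ∑ j ∈ s, (w i * (starRingEnd ℂ) (w j)) * (if n i = h then (if n j = h then 1 else 0) else 0) := by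
      intro h _
      have h4 : ((‖cf s n w h‖ : ℂ) ^ 2) = cf s n w h * (starRingEnd ℂ) (cf s n w h) := by
        rw [Complex.mul_conj, Complex.normSq_eq_norm_sq]
        push_cast
        rfl
      rw [h4]
      unfold cf
      rw [map_sum, Finset.sum_filter, Finset.sum_filter, Finset.sum_mul_sum]
      refine Finset.sum_congr rfl fun i _ => Finset.sum_congr rfl fun j _ => ?_
      split_ifs <;> simp
    rw [Finset.sum_congr rfl h3, Finset.sum_comm]
    refine Finset.sum_congr rfl fun i hi => ?_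
    rw [Finset.sum_comm]
    refine Finset.sum_congr rfl fun j hj => ?_
    rw [← Finset.mul_sum]
    congr 1
    rw [Finset.sum_ite_eq T (n i) (fun h => if n j = h then (1:ℂ) else 0)]
    have : n i ∈ T := Finset.mem_union_right _ (Finset.mem_image_of_mem n hi)
    rw [if_pos this]
    simp only [eq_comm]
  exact_mod_cast h2

/-- the quadratic Weyl sum -/
noncomputable def W (N : ℕ) (α β : ℝ) : ℂ := ∑ x ∈ Icc 1 N, ee (α * x + β * x ^ 2)

lemma W_eq_TP (N : ℕ) (α β : ℝ) :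
    W N α β = TP (Icc 1 N) (fun x => (x : ℤ)) (fun x => ee (β * (x:ℝ) ^ 2)) α := by
  unfold W TP
  refine Finset.sum_congr rfl fun x _ => ?_
  rw [← ee_add]
  congr 1
  push_cast
  ring

lemma norm_W_le (N : ℕ) (α β : ℝ) : ‖W N α β‖ ≤ N := by
  unfold W
  refine (norm_sum_le _ _).trans ?_
  simp [norm_ee]

/-- the second moment -/
lemma second_moment (N : ℕ) (β : ℝ) : ∫ α in (0:ℝ)..1, ‖W N α β‖ ^ 2 = N := by
  have h := TP_parseval (Icc 1 N) (fun x => (x : ℤ)) (fun x => ee (β * (x:ℝ) ^ 2))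
  simp_rw [← W_eq_TP] at h
  have h2 : ∑ i ∈ Icc 1 N, ∑ j ∈ Icc 1 N, (ee (β * (i:ℝ) ^ 2) * (starRingEnd ℂ) (ee (β * (j:ℝ) ^ 2))) *
      (if ((i:ℤ)) = (j:ℤ) then (1:ℂ) else 0) = (N : ℂ) := by
    have h3 : ∀ i ∈ Icc 1 N, ∑ j ∈ Icc 1 N, (ee (β * (i:ℝ) ^ 2) * (starRingEnd ℂ) (ee (β * (j:ℝ) ^ 2))) *
      (if ((i:ℤ)) = (j:ℤ) then (1:ℂ) else 0) = 1 := by
      intro i hi
      rw [Finset.sum_eq_single i]
      · rw [if_pos rfl, mul_one, ← ee_sub, sub_self, ee_zero]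
      · intro j _ hj
        rw [if_neg, mul_zero]
        intro h
        exact hj (by exact_mod_cast h.symm)
      · intro h
        exact absurd hi h
    rw [Finset.sum_congr rfl h3]
    simp
  rw [h2] at h
  exact_mod_cast h

/-- the square of the Weyl sum as a trigonometric polynomial -/
lemma W_sq_TP (N : ℕ) (α β : ℝ) :
    ((‖W N α β‖ ^ 2 : ℝ) : ℂ) = TP (Icc 1 N ×ˢ Icc 1 N) (fun p => (p.1 : ℤ) - (p.2 : ℤ))
      (fun p => ee (β * ((p.1:ℝ) ^ 2 - (p.2:ℝ) ^ 2))) α := by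
  have h1 : ((‖W N α β‖ ^ 2 : ℝ) : ℂ) = W N α β * (starRingEnd ℂ) (W N α β) := by
    rw [Complex.mul_conj, Complex.normSq_eq_norm_sq]
  rw [h1]
  unfold W TP
  rw [map_sum, Finset.sum_mul_sum, Finset.sum_product]
  refine Finset.sum_congr rfl fun i _ => Finset.sum_congr rfl fun j _ => ?_
  rw [← ee_sub, ← ee_add]
  congr 1
  push_cast
  ring

/-- the coefficient of the square at `h ≥ 0` -/
lemma cf_eq (N h : ℕ) (β : ℝ) :
    cf (Icc 1 N ×ˢ Icc 1 N) (fun p => (p.1 : ℤ) - (p.2 : ℤ))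
      (fun p => ee (β * ((p.1:ℝ) ^ 2 - (p.2:ℝ) ^ 2))) (h : ℤ) =
      ∑ y ∈ Icc 1 (N - h), ee (β * (2 * h * y + (h:ℝ) ^ 2)) := by
  unfold cf
  symm
  refine Finset.sum_bij (fun y _ => (y + h, y)) ?_ ?_ ?_ ?_
  · intro y hy
    rw [Finset.mem_Icc] at hy
    simp only [Finset.mem_filter, Finset.mem_product, Finset.mem_Icc]
    refine ⟨⟨⟨by omega, by omega⟩, by omega, by omega⟩, ?_⟩
    push_cast
    ring
  · intro a _ b _ hab
    exact (Prod.mk.inj hab).2
  · rintro ⟨x, y⟩ hp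
    simp only [Finset.mem_filter, Finset.mem_product, Finset.mem_Icc] at hp
    obtain ⟨⟨⟨h1, h2⟩, h3, h4⟩, h5⟩ := hp
    refine ⟨y, ?_, ?_⟩
    · rw [Finset.mem_Icc]
      omega
    · ext
      · simp only
        omega
      · rfl
  · intro y _
    congr 1
    push_cast
    ring

/-- the fourth moment on a major arc of the quadratic coefficient -/
theorem fourth_moment {N q : ℕ} (hN : 1 ≤ N) (hq : 1 ≤ q) (a : ℤ) {β : ℝ}
    (hβ : |β - (a:ℝ) / q| ≤ 1 / (16 * (N:ℝ) ^ 2)) :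
    (N:ℝ) ^ 3 / (32 * q) ≤ ∫ α in (0:ℝ)..1, ‖W N α β‖ ^ 4 := by
  classical
  have hNr : (1:ℝ) ≤ N := by exact_mod_cast hN
  have hqr : (1:ℝ) ≤ q := by exact_mod_cast hq
  have h4 : ∫ α in (0:ℝ)..1, ‖W N α β‖ ^ 4 = ∫ α in (0:ℝ)..1,
      ‖TP (Icc 1 N ×ˢ Icc 1 N) (fun p => (p.1 : ℤ) - (p.2 : ℤ))
      (fun p => ee (β * ((p.1:ℝ) ^ 2 - (p.2:ℝ) ^ 2))) α‖ ^ 2 := by
    refine intervalIntegral.integral_congr fun α _ => ?_
    rw [← W_sq_TP, Complex.norm_real, Real.norm_eq_abs, sq_abs]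
    ring
  rw [h4]
  set J : ℕ := N / (2 * q) with hJ
  set S : Finset ℤ := (Finset.range (J + 1)).image (fun j : ℕ => ((q * j : ℕ) : ℤ)) with hS
  refine le_trans ?_ (TP_bessel _ _ _ S)
  rw [hS, Finset.sum_image]
  swap
  · intro i _ j _ hij
    have h : q * i = q * j := by
      have h0 : ((q * i : ℕ) : ℤ) = ((q * j : ℕ) : ℤ) := hij
      exact_mod_cast h0
    exact Nat.eq_of_mul_eq_mul_left (by omega) h
  have hterm : ∀ j ∈ Finset.range (J + 1), ((N:ℝ) / 4) ^ 2 ≤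
      ‖cf (Icc 1 N ×ˢ Icc 1 N) (fun p => (p.1 : ℤ) - (p.2 : ℤ))
      (fun p => ee (β * ((p.1:ℝ) ^ 2 - (p.2:ℝ) ^ 2))) ((q * j : ℕ) : ℤ)‖ ^ 2 := by
    intro j hj
    rw [Finset.mem_range] at hj
    have hj2 : 2 * (q * j) ≤ N := by
      have h1 : j ≤ N / (2 * q) := by omega
      have h2 : j * (2 * q) ≤ N := (Nat.le_div_iff_mul_le (by omega)).1 h1
      calc 2 * (q * j) = j * (2 * q) := by ring
        _ ≤ N := h2
    rw [cf_eq]
    set h : ℕ := q * j with hh
    have hhr : (h:ℝ) ≤ N / 2 := by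
      have : ((2 * h : ℕ) : ℝ) ≤ N := by exact_mod_cast hj2
      push_cast at this
      linarith
    set δ : ℝ := β - (a:ℝ) / q with hδ
    have hβ' : β = (a:ℝ) / q + δ := by rw [hδ]; ring
    have hy : ∀ y ∈ Icc 1 (N - h), ee (β * (2 * h * y + (h:ℝ) ^ 2)) =
        ee (β * (h:ℝ) ^ 2) * ee (2 * δ * h * y) := by
      intro y _
      have h1 : β * (2 * h * y + (h:ℝ) ^ 2) = β * (h:ℝ) ^ 2 + 2 * δ * h * y + ((2 * a * j * y : ℤ) : ℝ) := by
        have h2 : (a:ℝ) / q * (2 * h * y) = ((2 * a * j * y : ℤ) : ℝ) := by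
          rw [hh]
          push_cast
          field_simp
        calc β * (2 * h * y + (h:ℝ) ^ 2) = β * (h:ℝ) ^ 2 + 2 * δ * h * y + (a:ℝ) / q * (2 * h * y) := by
              rw [hβ']; ring
          _ = _ := by rw [h2]
      rw [h1, ee_add, ee_int, mul_one, ee_add]
    rw [Finset.sum_congr rfl hy, ← Finset.mul_sum, norm_mul, norm_ee, one_mul]
    have hre : ((N:ℝ) - h) * (1/2) ≤ (∑ y ∈ Icc 1 (N - h), ee (2 * δ * h * y)).re := by
      rw [Complex.re_sum]
      have h1 : ∑ y ∈ Icc 1 (N - h), (1/2 : ℝ) ≤ ∑ y ∈ Icc 1 (N - h), (ee (2 * δ * h * y)).re := by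
        refine Finset.sum_le_sum fun y hy => ?_
        rw [Finset.mem_Icc] at hy
        have hyN : (y:ℝ) ≤ N := by
          have : y ≤ N := by omega
          exact_mod_cast this
        rw [ee_re]
        have habs : |2 * δ * h * y| ≤ 1 / 16 := by
          rw [abs_mul, abs_mul, abs_mul, abs_two, abs_of_nonneg (Nat.cast_nonneg h : (0:ℝ) ≤ h),
            abs_of_nonneg (Nat.cast_nonneg y : (0:ℝ) ≤ y)]
          calc 2 * |δ| * h * y ≤ 2 * (1 / (16 * (N:ℝ) ^ 2)) * (N / 2) * N := by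
                gcongr
            _ = 1 / 16 := by
                field_simp
        have h2 : |2 * Real.pi * (2 * δ * h * y)| ≤ Real.pi / 3 := by
          rw [abs_mul, abs_of_pos (by positivity : (0:ℝ) < 2 * Real.pi)]
          have := Real.pi_pos
          nlinarith
        rw [← Real.cos_abs, ← Real.cos_pi_div_three]
        exact Real.cos_le_cos_of_nonneg_of_le_pi (abs_nonneg _) (by have := Real.pi_pos; linarith) h2
      refine le_trans (le_of_eq ?_) h1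
      rw [Finset.sum_const, Nat.card_Icc, nsmul_eq_mul]
      have h3 : ((N - h + 1 - 1 : ℕ) : ℝ) = (N:ℝ) - h := by
        rw [Nat.add_sub_cancel, Nat.cast_sub (by omega)]
      rw [h3]
    have h5 : (N:ℝ) / 4 ≤ ‖∑ y ∈ Icc 1 (N - h), ee (2 * δ * h * y)‖ := by
      refine le_trans ?_ (Complex.re_le_norm _)
      refine le_trans ?_ hre
      linarith
    exact pow_le_pow_left₀ (by positivity) h5 2
  refine le_trans ?_ (Finset.sum_le_sum hterm)
  rw [Finset.sum_const, Finset.card_range, nsmul_eq_mul]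
  have hJ1 : (N:ℝ) / (2 * q) ≤ ((J + 1 : ℕ) : ℝ) := by
    have h1 : N < (J + 1) * (2 * q) := by
      rw [hJ]
      exact Nat.lt_mul_of_div_lt (Nat.lt_succ_self _) (by omega)
    rw [div_le_iff₀ (by positivity)]
    have h2 : (N:ℝ) ≤ (((J + 1) * (2 * q) : ℕ) : ℝ) := by exact_mod_cast h1.le
    push_cast at h2 ⊢
    linarith
  calc (N:ℝ) ^ 3 / (32 * q) = (N:ℝ) / (2 * q) * ((N:ℝ) / 4) ^ 2 := by
        field_simp
        ring
    _ ≤ ((J + 1 : ℕ) : ℝ) * ((N:ℝ) / 4) ^ 2 := by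
        gcongr

end Pool.Agent.Helper76.EM
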