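import Pool.Agent.Helper76.EM.Slab

/-!
# A set of measure `≫ X^{-1/2}` on which the fourth moment exceeds square root cancellation
-/

open Finset MeasureTheory

namespace Pool.Agent.Helper76.EM

lemma W4_integrable (N : ℕ) {E : Set ℝ} (hE1 : E ⊆ Set.Ico 0 1) :
    IntegrableOn (fun z : ℝ × ℝ => ‖W N z.1 z.2‖ ^ 4) (Set.Ico (0:ℝ) 1 ×ˢ E) (volume.prod volume) := by
  refine intOn_of_bdd hE1 (K := (N:ℝ) ^ 4) ?_ ?_
  · exact ((W_continuous N).norm.pow 4).measurable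
  · intro z
    rw [abs_of_nonneg (by positivity)]
    exact pow_le_pow_left₀ (norm_nonneg _) (norm_W_le N _ _) 4

lemma MJ_volume_ne_top {Q : ℕ} {η : ℝ} (h : MJ Q η ⊆ Set.Ico 0 1) : volume (MJ Q η) ≠ ⊤ := by
  refine ne_top_of_le_ne_top ENNReal.one_ne_top ((measure_mono h).trans ?_)
  rw [Real.volume_Ico]
  simp

/-- the fourth moment over the slab above the major arcs of the quadratic coefficient -/
lemma slab_fourth {N Q : ℕ} (hN : 1 ≤ N) (h : MJ Q (1 / (16 * (N:ℝ) ^ 2)) ⊆ Set.Ico 0 1) :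
    (volume (MJ Q (1 / (16 * (N:ℝ) ^ 2)))).toReal * ((N:ℝ) ^ 3 / (32 * Q)) ≤
      ∫ α in slab (MJ Q (1 / (16 * (N:ℝ) ^ 2))), ‖W N (α 0) (α 1)‖ ^ 4 := by
  set E := MJ Q (1 / (16 * (N:ℝ) ^ 2)) with hE
  rw [slab_integral E (fun z : ℝ × ℝ => ‖W N z.1 z.2‖ ^ 4) (W4_integrable N h)]
  have h1 : ∫ _ in E, ((N:ℝ) ^ 3 / (32 * Q)) = (volume E).toReal * ((N:ℝ) ^ 3 / (32 * Q)) := by
    rw [setIntegral_const, smul_eq_mul]
    rfl
  rw [← h1]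
  refine setIntegral_mono_on ?_ (inner_integrable E _ (W4_integrable N h)) (MJ_meas _ _) ?_
  · exact integrableOn_const (MJ_volume_ne_top h)
  · intro β hβ
    obtain ⟨a, q, hq1, hq2, hq3⟩ := mem_MJ hβ
    have h2 := fourth_moment hN hq1 (a := (a:ℤ)) (β := β) (by simpa using hq3)
    refine le_trans ?_ h2
    have hq : (0:ℝ) < q := by exact_mod_cast hq1
    have hqQ : (q:ℝ) ≤ Q := by exact_mod_cast hq2
    gcongr

/-- **The bound fails for `k = 2`, `s = 2`** on sets of measure `≥ X^{-1/2}/128`. -/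
theorem large_fails (C : ℝ) : ∃ X : ℕ, 1 ≤ X ∧ ∃ B : Set (Fin 2 → ℝ), MeasurableSet B ∧
    B ⊆ Set.pi Set.univ (fun _ => Set.Ico (0:ℝ) 1) ∧
    (1/128) * (X:ℝ) ^ (-(1/2) : ℝ) ≤ (volume B).toReal ∧
    C * (X:ℝ) ^ (1/10 : ℝ) * ((X:ℝ) ^ 2 * (volume B).toReal + X) <
      ∫ α in B, ‖W X (α 0) (α 1)‖ ^ 4 := by
  obtain ⟨m, hm⟩ := exists_nat_gt ((4128 * |C| + 1) ^ 2)
  have hm1 : (1:ℝ) ≤ m := by
    have : (1:ℝ) ≤ (4128 * |C| + 1) ^ 2 := by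
      have := abs_nonneg C
      nlinarith
    linarith
  have hm0 : 1 ≤ m := by exact_mod_cast hm1
  have hmpos : (0:ℝ) < m := by linarith
  have hsqrt : 4128 * |C| + 1 < Real.sqrt m := by
    rw [Real.lt_sqrt (by positivity)]
    exact hm
  set X : ℕ := m ^ 5 with hX
  set Q : ℕ := m ^ 4 with hQ
  have hXr : (X:ℝ) = (m:ℝ) ^ 5 := by rw [hX]; push_cast; rfl
  have hQr : (Q:ℝ) = (m:ℝ) ^ 4 := by rw [hQ]; push_cast; rfl
  have hX1 : 1 ≤ X := Nat.one_le_pow _ _ hm0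
  have hQ1 : 1 ≤ Q := Nat.one_le_pow _ _ hm0
  set η : ℝ := 1 / (16 * (X:ℝ) ^ 2) with hη
  have hη0 : 0 < η := by
    rw [hη, hXr]
    positivity
  have hηQ2 : η * (Q:ℝ) ^ 2 ≤ 1 := by
    rw [hη, hXr, hQr, div_mul_eq_mul_div, one_mul, div_le_one (by positivity)]
    calc ((m:ℝ) ^ 4) ^ 2 = 1 * (m:ℝ) ^ 8 := by ring
      _ ≤ 16 * (m:ℝ) ^ 10 := by
          have : (m:ℝ) ^ 8 ≤ (m:ℝ) ^ 10 := pow_le_pow_right₀ hm1 (by norm_num)
          nlinarith [pow_pos hmpos 8]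
      _ = 16 * ((m:ℝ) ^ 5) ^ 2 := by ring
  have hηQ : η * (Q:ℝ) ≤ 1 := by
    refine le_trans ?_ hηQ2
    have h1 : (1:ℝ) ≤ Q := by exact_mod_cast hQ1
    have : (Q:ℝ) ≤ (Q:ℝ) ^ 2 := by nlinarith
    gcongr
  have hsub := MJ_subset hηQ
  have hvol := MJ_volume hη0.le hηQ2
  set μ : ℝ := (volume (MJ Q η)).toReal with hμ
  have hμlow : 1 / (128 * (m:ℝ) ^ 2) ≤ μ := by
    rw [hvol]
    have h1 := card_FQ Q
    calc 1 / (128 * (m:ℝ) ^ 2) = (Q:ℝ) ^ 2 / 8 * η := by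
          rw [hη, hXr, hQr]
          field_simp
          ring
      _ ≤ _ := by gcongr
  refine ⟨X, hX1, slab (MJ Q η), slab_meas (MJ_meas _ _), slab_subset hsub, ?_, ?_⟩
  · rw [slab_volume]
    refine le_trans ?_ hμlow
    have h1 : (X:ℝ) ^ (-(1/2) : ℝ) ≤ 1 / (m:ℝ) ^ 2 := by
      have h2 : (m:ℝ) ^ 2 ≤ (X:ℝ) ^ (1/2 : ℝ) := by
        rw [hXr, ← Real.rpow_natCast, ← Real.rpow_natCast, ← Real.rpow_mul hmpos.le]
        apply Real.rpow_le_rpow_of_exponent_le hm1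
        norm_num
      rw [Real.rpow_neg (Nat.cast_nonneg _), ← one_div]
      exact one_div_le_one_div_of_le (by positivity) h2
    calc (1/128) * (X:ℝ) ^ (-(1/2) : ℝ) ≤ (1/128) * (1 / (m:ℝ) ^ 2) := by gcongr
      _ = 1 / (128 * (m:ℝ) ^ 2) := by ring
  · rw [slab_volume]
    change C * (X:ℝ) ^ (1/10 : ℝ) * ((X:ℝ) ^ 2 * μ + X) < _
    refine lt_of_lt_of_le ?_ (slab_fourth hX1 hsub)
    change _ < μ * ((X:ℝ) ^ 3 / (32 * Q))
    have hμ0 : 0 < μ := lt_of_lt_of_le (by positivity) hμlow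
    have hpow : (X:ℝ) ^ (1/10 : ℝ) = Real.sqrt m := by
      rw [hXr, Real.sqrt_eq_rpow, ← Real.rpow_natCast, ← Real.rpow_mul hmpos.le]
      norm_num
    rw [hpow]
    have hs0 : 0 < Real.sqrt m := Real.sqrt_pos.2 hmpos
    have hss : Real.sqrt m * Real.sqrt m = m := Real.mul_self_sqrt hmpos.le
    have h1 : (X:ℝ) ^ 2 * μ + X ≤ 129 * (m:ℝ) ^ 10 * μ := by
      rw [hXr]
      have h2 : (1:ℝ) ≤ 128 * (m:ℝ) ^ 2 * μ := by
        rw [div_le_iff₀ (by positivity)] at hμlow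
        linarith
      have h3 : (m:ℝ) ^ 5 ≤ 128 * (m:ℝ) ^ 10 * μ := by
        calc (m:ℝ) ^ 5 = (m:ℝ) ^ 5 * 1 := by ring
          _ ≤ (m:ℝ) ^ 5 * (128 * (m:ℝ) ^ 2 * μ) := by gcongr
          _ = 128 * (m:ℝ) ^ 7 * μ := by ring
          _ ≤ 128 * (m:ℝ) ^ 10 * μ := by
              have : (m:ℝ) ^ 7 ≤ (m:ℝ) ^ 10 := pow_le_pow_right₀ hm1 (by norm_num)
              gcongr
      calc ((m:ℝ) ^ 5) ^ 2 * μ + (m:ℝ) ^ 5 ≤ ((m:ℝ) ^ 5) ^ 2 * μ + 128 * (m:ℝ) ^ 10 * μ := by linarith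
        _ = 129 * (m:ℝ) ^ 10 * μ := by ring
    have h0 : (0:ℝ) ≤ (X:ℝ) ^ 2 * μ + X := by positivity
    calc C * Real.sqrt m * ((X:ℝ) ^ 2 * μ + X) ≤ |C| * Real.sqrt m * ((X:ℝ) ^ 2 * μ + X) := by
          gcongr
          exact le_abs_self C
      _ ≤ |C| * Real.sqrt m * (129 * (m:ℝ) ^ 10 * μ) := by gcongr
      _ = (4128 * |C|) * Real.sqrt m * ((m:ℝ) ^ 10 * μ / 32) := by ring
      _ < Real.sqrt m * Real.sqrt m * ((m:ℝ) ^ 10 * μ / 32) := by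
          have h5 : 4128 * |C| < Real.sqrt m := by linarith
          have h6 : 0 < (m:ℝ) ^ 10 * μ / 32 := by positivity
          gcongr
      _ = μ * ((X:ℝ) ^ 3 / (32 * Q)) := by
          rw [hss, hXr, hQr]
          field_simp
          
end Pool.Agent.Helper76.EM
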