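import Pool.Agent.Helper76.EM.Large

/-!
# The extended bound fails for `k = 2` and every `s < 3`
-/

open Finset MeasureTheory

namespace Pool.Agent.Helper76.EM

/-- the part of a slab on which the Weyl sum has absolute value at least `t` -/
def lev (N : ℕ) (E : Set ℝ) (t : ℝ) : Set (Fin 2 → ℝ) := slab E ∩ {α | t ≤ ‖W N (α 0) (α 1)‖}

lemma Wc2 (N : ℕ) : Continuous (fun α : Fin 2 → ℝ => W N (α 0) (α 1)) := by
  unfold W
  have := ee_continuous
  fun_prop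

lemma lev_meas {N : ℕ} {E : Set ℝ} (hE : MeasurableSet E) (t : ℝ) : MeasurableSet (lev N E t) := by
  unfold lev
  exact (slab_meas hE).inter (measurableSet_le measurable_const (Wc2 N).norm.measurable)

lemma fin_of_sub {B : Set (Fin 2 → ℝ)} (hB : B ⊆ Set.pi Set.univ (fun _ => Set.Ico (0:ℝ) 1)) :
    volume B ≠ ⊤ := by
  refine ne_top_of_le_ne_top ENNReal.one_ne_top ((measure_mono hB).trans ?_)
  rw [Real.volume_pi_Ico]
  simp

lemma rpowInt {B : Set (Fin 2 → ℝ)} (hB : B ⊆ Set.pi Set.univ (fun _ => Set.Ico (0:ℝ) 1))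
    (N : ℕ) {p : ℝ} (hp : 0 ≤ p) :
    IntegrableOn (fun α : Fin 2 → ℝ => ‖W N (α 0) (α 1)‖ ^ p) B := by
  refine Integrable.mono' (g := fun _ => (N:ℝ) ^ p) (integrableOn_const (fin_of_sub hB)) ?_
    (Filter.Eventually.of_forall fun α => ?_)
  · exact ((Wc2 N).norm.rpow_const (fun _ => Or.inr hp)).aestronglyMeasurable
  · rw [Real.norm_eq_abs, abs_of_nonneg (by positivity)]
    exact Real.rpow_le_rpow (norm_nonneg _) (norm_W_le N _ _) hp

lemma powInt {B : Set (Fin 2 → ℝ)} (hB : B ⊆ Set.pi Set.univ (fun _ => Set.Ico (0:ℝ) 1))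
    (N p : ℕ) : IntegrableOn (fun α : Fin 2 → ℝ => ‖W N (α 0) (α 1)‖ ^ p) B := by
  have h := rpowInt hB N (p := (p:ℝ)) (Nat.cast_nonneg p)
  simpa only [Real.rpow_natCast] using h

/-- the second moment over a slab -/
lemma slab_second (N : ℕ) {E : Set ℝ} (hE1 : E ⊆ Set.Ico 0 1) :
    ∫ α in slab E, ‖W N (α 0) (α 1)‖ ^ 2 = (volume E).toReal * N := by
  have hint : IntegrableOn (fun z : ℝ × ℝ => ‖W N z.1 z.2‖ ^ 2) (Set.Ico (0:ℝ) 1 ×ˢ E)
      (volume.prod volume) := by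
    refine intOn_of_bdd hE1 (K := (N:ℝ) ^ 2) ?_ ?_
    · exact ((W_continuous N).norm.pow 2).measurable
    · intro z
      rw [abs_of_nonneg (by positivity)]
      exact pow_le_pow_left₀ (norm_nonneg _) (norm_W_le N _ _) 2
  rw [slab_integral E (fun z : ℝ × ℝ => ‖W N z.1 z.2‖ ^ 2) hint]
  simp only [second_moment]
  rw [setIntegral_const, smul_eq_mul]
  rfl

/-- most of the fourth moment over the slab is on the level set -/
lemma lev_fourth {N Q : ℕ} (hN : 1 ≤ N)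
    (h : MJ Q (1 / (16 * (N:ℝ) ^ 2)) ⊆ Set.Ico 0 1) {t : ℝ}
    (ht : t ^ 2 = (N:ℝ) ^ 2 / (64 * Q)) :
    (volume (MJ Q (1 / (16 * (N:ℝ) ^ 2)))).toReal * ((N:ℝ) ^ 3 / (64 * Q)) ≤
      ∫ α in lev N (MJ Q (1 / (16 * (N:ℝ) ^ 2))) t, ‖W N (α 0) (α 1)‖ ^ 4 := by
  have h4 := slab_fourth hN h (Q := Q)
  set E := MJ Q (1 / (16 * (N:ℝ) ^ 2)) with hE
  have hEm : MeasurableSet E := MJ_meas _ _
  have hsub := slab_subset h
  have h2 := slab_second N h
  have hsplit : ∫ α in slab E, ‖W N (α 0) (α 1)‖ ^ 4 =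
      (∫ α in lev N E t, ‖W N (α 0) (α 1)‖ ^ 4) +
        ∫ α in slab E \ {α | t ≤ ‖W N (α 0) (α 1)‖}, ‖W N (α 0) (α 1)‖ ^ 4 := by
    unfold lev
    exact (integral_inter_add_sdiff (measurableSet_le measurable_const (Wc2 N).norm.measurable)
      (powInt hsub N 4)).symm
  have hsmall : ∫ α in slab E \ {α | t ≤ ‖W N (α 0) (α 1)‖}, ‖W N (α 0) (α 1)‖ ^ 4 ≤
      t ^ 2 * ((volume E).toReal * N) := by
    have hmD : MeasurableSet (slab E \ {α | t ≤ ‖W N (α 0) (α 1)‖}) :=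
      (slab_meas hEm).diff (measurableSet_le measurable_const (Wc2 N).norm.measurable)
    calc ∫ α in slab E \ {α | t ≤ ‖W N (α 0) (α 1)‖}, ‖W N (α 0) (α 1)‖ ^ 4
        ≤ ∫ α in slab E \ {α | t ≤ ‖W N (α 0) (α 1)‖}, t ^ 2 * ‖W N (α 0) (α 1)‖ ^ 2 := by
          refine setIntegral_mono_on ?_ ?_ hmD ?_
          · exact (powInt hsub N 4).mono_set Set.sdiff_subset
          · exact ((powInt hsub N 2).mono_set Set.sdiff_subset).const_mul _
          · intro α hα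
            have h5 : ‖W N (α 0) (α 1)‖ < t := not_le.1 hα.2
            have h6 : ‖W N (α 0) (α 1)‖ ^ 2 ≤ t ^ 2 := pow_le_pow_left₀ (norm_nonneg _) h5.le 2
            calc ‖W N (α 0) (α 1)‖ ^ 4 = ‖W N (α 0) (α 1)‖ ^ 2 * ‖W N (α 0) (α 1)‖ ^ 2 := by ring
              _ ≤ t ^ 2 * ‖W N (α 0) (α 1)‖ ^ 2 := by gcongr
      _ ≤ ∫ α in slab E, t ^ 2 * ‖W N (α 0) (α 1)‖ ^ 2 := by
          refine setIntegral_mono_set ((powInt hsub N 2).const_mul _) ?_ ?_
          · exact Filter.Eventually.of_forall fun α => by positivity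
          · exact Filter.Eventually.of_forall fun α hα => hα.1
      _ = t ^ 2 * ((volume E).toReal * N) := by
          rw [integral_const_mul, h2]
  have hid : t ^ 2 * ((volume E).toReal * N) = (volume E).toReal * ((N:ℝ) ^ 3 / (64 * Q)) := by
    rw [ht]
    ring
  have hid2 : (volume E).toReal * ((N:ℝ) ^ 3 / (32 * Q)) =
      2 * ((volume E).toReal * ((N:ℝ) ^ 3 / (64 * Q))) := by
    ring
  rw [hid] at hsmall
  rw [hid2, hsplit] at h4
  linarith

/-- **The bound fails for `k = 2` and all `s < 3`**. -/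
theorem neg_k2 {s : ℝ} (hs0 : 0 < s) (hs3 : s < 3) : ∃ ε : ℝ, 0 < ε ∧ ∀ C : ℝ, ∃ X : ℕ, 1 ≤ X ∧
    ∃ B : Set (Fin 2 → ℝ), MeasurableSet B ∧ B ⊆ Set.pi Set.univ (fun _ => Set.Ico (0:ℝ) 1) ∧
    C * (X:ℝ) ^ ε * ((X:ℝ) ^ s * (volume B).toReal + (X:ℝ) ^ (2 * s - 3)) <
      ∫ α in B, ‖W X (α 0) (α 1)‖ ^ (2 * s) := by
  set δ : ℝ := min s (min (3 - s) 1) with hδ
  have hδ0 : 0 < δ := lt_min hs0 (lt_min (by linarith) one_pos)
  have hδs : δ ≤ s := min_le_left _ _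
  have hδ3 : δ ≤ 3 - s := (min_le_right _ _).trans (min_le_left _ _)
  have hδ1 : δ ≤ 1 := (min_le_right _ _).trans (min_le_right _ _)
  set K : ℝ := 1 / (8192 * (64:ℝ) ^ s) with hK
  have h64 : (1:ℝ) ≤ (64:ℝ) ^ s := Real.one_le_rpow (by norm_num) hs0.le
  have hK0 : 0 < K := by positivity
  refine ⟨δ / 4, by linarith, fun C => ?_⟩
  -- the size
  obtain ⟨m, hm⟩ := exists_nat_gt ((2 * |C| / K + 1) ^ (2 / δ))
  have hm1 : (1:ℝ) ≤ m := by
    have h1 : (1:ℝ) ≤ (2 * |C| / K + 1) ^ (2 / δ) := by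
      apply Real.one_le_rpow _ (by positivity)
      have : 0 ≤ 2 * |C| / K := by positivity
      linarith
    linarith
  have hm0 : 1 ≤ m := by exact_mod_cast hm1
  have hmpos : (0:ℝ) < m := by linarith
  have hbig : 2 * |C| / K + 1 < (m:ℝ) ^ (δ / 2) := by
    have h1 : (0:ℝ) ≤ 2 * |C| / K + 1 := by positivity
    have h2 := Real.rpow_lt_rpow (by positivity) hm (show (0:ℝ) < δ / 2 by linarith)
    rw [← Real.rpow_mul h1] at h2
    have h3 : 2 / δ * (δ / 2) = 1 := by field_simp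
    rwa [h3, Real.rpow_one] at h2
  have hbig2 : 2 * |C| < K * (m:ℝ) ^ (δ / 2) := by
    have h1 : 2 * |C| / K < (m:ℝ) ^ (δ / 2) := by linarith
    rw [div_lt_iff₀ hK0] at h1
    linarith
  set X : ℕ := m ^ 2 with hX
  have hXr : (X:ℝ) = (m:ℝ) ^ 2 := by rw [hX]; push_cast; rfl
  have hX1 : 1 ≤ X := Nat.one_le_pow _ _ hm0
  have hXpos : (0:ℝ) < X := by
    rw [hXr]
    positivity
  set η : ℝ := 1 / (16 * (X:ℝ) ^ 2) with hη
  have hη0 : 0 < η := by
    rw [hη]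
    positivity
  have hηQ2 : η * (m:ℝ) ^ 2 ≤ 1 := by
    rw [hη, hXr, div_mul_eq_mul_div, one_mul, div_le_one (by positivity)]
    calc (m:ℝ) ^ 2 = 1 * (m:ℝ) ^ 2 := by ring
      _ ≤ 16 * (m:ℝ) ^ 4 := by
          have : (m:ℝ) ^ 2 ≤ (m:ℝ) ^ 4 := pow_le_pow_right₀ hm1 (by norm_num)
          nlinarith [pow_pos hmpos 2]
      _ = 16 * ((m:ℝ) ^ 2) ^ 2 := by ring
  have hηQ : η * (m:ℝ) ≤ 1 := by
    refine le_trans ?_ hηQ2
    have : (m:ℝ) ≤ (m:ℝ) ^ 2 := by nlinarith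
    gcongr
  have hsub := MJ_subset (Q := m) hηQ
  have hvol := MJ_volume (Q := m) hη0.le hηQ2
  set μ : ℝ := (volume (MJ m η)).toReal with hμ
  have hμlow : 1 / (128 * (m:ℝ) ^ 2) ≤ μ := by
    rw [hvol]
    have h1 := card_FQ m
    calc 1 / (128 * (m:ℝ) ^ 2) = (m:ℝ) ^ 2 / 8 * η := by
          rw [hη, hXr]
          field_simp
          ring
      _ ≤ _ := by gcongr
  -- the level
  set t : ℝ := Real.sqrt ((X:ℝ) ^ 2 / (64 * m)) with ht
  have ht2 : t ^ 2 = (X:ℝ) ^ 2 / (64 * m) := Real.sq_sqrt (by positivity)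
  have ht0 : 0 < t := Real.sqrt_pos.2 (by positivity)
  set B : Set (Fin 2 → ℝ) := lev X (MJ m η) t with hB
  have hBsub : B ⊆ Set.pi Set.univ (fun _ => Set.Ico (0:ℝ) 1) :=
    Set.inter_subset_left.trans (slab_subset hsub)
  have hBm : MeasurableSet B := lev_meas (MJ_meas _ _) t
  refine ⟨X, hX1, B, hBm, hBsub, ?_⟩
  set L : ℝ := ∫ α in B, ‖W X (α 0) (α 1)‖ ^ (2 * s) with hL
  have hI4 : (m:ℝ) ^ 3 / 8192 ≤ ∫ α in B, ‖W X (α 0) (α 1)‖ ^ 4 := by
    refine le_trans ?_ (lev_fourth hX1 hsub ht2)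
    change _ ≤ μ * ((X:ℝ) ^ 3 / (64 * m))
    calc (m:ℝ) ^ 3 / 8192 = 1 / (128 * (m:ℝ) ^ 2) * ((X:ℝ) ^ 3 / (64 * m)) := by
          rw [hXr]
          field_simp
          ring
      _ ≤ μ * ((X:ℝ) ^ 3 / (64 * m)) := by gcongr
  -- first bound
  have hL1 : K * (m:ℝ) ^ δ * ((X:ℝ) ^ s * (volume B).toReal) ≤ L := by
    have h1 : ∫ _ in B, t ^ (2 * s) ≤ L := by
      refine setIntegral_mono_on ?_ (rpowInt hBsub X (by linarith)) hBm ?_
      · exact integrableOn_const (fin_of_sub hBsub)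
      · intro α hα
        exact Real.rpow_le_rpow ht0.le hα.2 (by linarith)
    rw [setIntegral_const, smul_eq_mul] at h1
    refine le_trans ?_ h1
    have h2 : t ^ (2 * s) = (X:ℝ) ^ s * ((m:ℝ) ^ s / (64:ℝ) ^ s) := by
      rw [Real.rpow_mul ht0.le, Real.rpow_two, ht2, ← Real.div_rpow hmpos.le (by norm_num),
        ← Real.mul_rpow hXpos.le (by positivity)]
      congr 1
      rw [hXr]
      field_simp
    rw [h2]
    have h3 : K * (m:ℝ) ^ δ ≤ (m:ℝ) ^ s / (64:ℝ) ^ s := by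
      have h4 : (m:ℝ) ^ δ ≤ (m:ℝ) ^ s := Real.rpow_le_rpow_of_exponent_le hm1 hδs
      have h5 : K ≤ 1 / (64:ℝ) ^ s := by
        rw [hK]
        apply one_div_le_one_div_of_le (by positivity)
        nlinarith
      calc K * (m:ℝ) ^ δ ≤ 1 / (64:ℝ) ^ s * (m:ℝ) ^ s := by gcongr
        _ = (m:ℝ) ^ s / (64:ℝ) ^ s := by ring
    change _ ≤ (volume B).toReal * _
    calc K * (m:ℝ) ^ δ * ((X:ℝ) ^ s * (volume B).toReal)
        ≤ ((m:ℝ) ^ s / (64:ℝ) ^ s) * ((X:ℝ) ^ s * (volume B).toReal) := by gcongr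
      _ = (volume B).toReal * ((X:ℝ) ^ s * ((m:ℝ) ^ s / (64:ℝ) ^ s)) := by ring
  -- second bound
  have hL2 : K * (m:ℝ) ^ δ * (X:ℝ) ^ (2 * s - 3) ≤ L := by
    have hX3 : (X:ℝ) ^ (2 * s - 3) = (m:ℝ) ^ (4 * s - 6) := by
      rw [hXr, ← Real.rpow_natCast, ← Real.rpow_mul hmpos.le]
      congr 1
      push_cast
      ring
    rcases le_total 2 s with h | h
    · have h1 : ∫ α in B, t ^ (2 * s - 4) * ‖W X (α 0) (α 1)‖ ^ 4 ≤ L := by
        refine setIntegral_mono_on ((powInt hBsub X 4).const_mul _)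
          (rpowInt hBsub X (by linarith)) hBm ?_
        intro α hα
        have h2 : t ≤ ‖W X (α 0) (α 1)‖ := hα.2
        have hw0 : 0 < ‖W X (α 0) (α 1)‖ := lt_of_lt_of_le ht0 h2
        have h3 : ‖W X (α 0) (α 1)‖ ^ (2 * s) =
            ‖W X (α 0) (α 1)‖ ^ (2 * s - 4) * ‖W X (α 0) (α 1)‖ ^ 4 := by
          rw [← Real.rpow_natCast (‖W X (α 0) (α 1)‖) 4, ← Real.rpow_add hw0]
          congr 1
          push_cast
          ring
        rw [h3]
        have h4 : t ^ (2 * s - 4) ≤ ‖W X (α 0) (α 1)‖ ^ (2 * s - 4) :=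
          Real.rpow_le_rpow ht0.le h2 (by linarith)
        gcongr
      rw [integral_const_mul] at h1
      refine le_trans ?_ h1
      have h2 : t ^ (2 * s - 4) = (m:ℝ) ^ (3 * s - 6) / (64:ℝ) ^ (s - 2) := by
        have h3 : 2 * s - 4 = 2 * (s - 2) := by ring
        rw [h3, Real.rpow_mul ht0.le, Real.rpow_two, ht2]
        have h4 : (X:ℝ) ^ 2 / (64 * m) = (m:ℝ) ^ 3 / 64 := by
          rw [hXr]
          field_simp
        rw [h4, Real.div_rpow (by positivity) (by norm_num), ← Real.rpow_natCast,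
          ← Real.rpow_mul hmpos.le]
        congr 2
        push_cast
        ring
      rw [h2]
      calc K * (m:ℝ) ^ δ * (X:ℝ) ^ (2 * s - 3)
          ≤ K * (m:ℝ) ^ (3 - s) * (m:ℝ) ^ (4 * s - 6) := by
            rw [hX3]
            have := Real.rpow_le_rpow_of_exponent_le hm1 hδ3
            gcongr
        _ = K * (m:ℝ) ^ (3 * s - 3) := by
            rw [mul_assoc, ← Real.rpow_add hmpos]
            congr 2
            ring
        _ ≤ (m:ℝ) ^ (3 * s - 3) / ((64:ℝ) ^ (s - 2) * 8192) := by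
            rw [hK, one_div_mul_eq_div]
            have h5 : (64:ℝ) ^ (s - 2) ≤ (64:ℝ) ^ s :=
              Real.rpow_le_rpow_of_exponent_le (by norm_num) (by linarith)
            have h6 : (64:ℝ) ^ (s - 2) * 8192 ≤ 8192 * (64:ℝ) ^ s := by
              rw [mul_comm (8192:ℝ)]
              gcongr
            gcongr
        _ = (m:ℝ) ^ (3 * s - 6) / (64:ℝ) ^ (s - 2) * ((m:ℝ) ^ 3 / 8192) := by
            have h5 : (m:ℝ) ^ (3 * s - 3) = (m:ℝ) ^ (3 * s - 6) * (m:ℝ) ^ 3 := by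
              rw [← Real.rpow_natCast (m:ℝ) 3, ← Real.rpow_add hmpos]
              congr 1
              push_cast
              ring
            rw [h5]
            field_simp
        _ ≤ _ := by gcongr
    · have h1 : ∫ α in B, (X:ℝ) ^ (2 * s - 4) * ‖W X (α 0) (α 1)‖ ^ 4 ≤ L := by
        refine setIntegral_mono_on ((powInt hBsub X 4).const_mul _)
          (rpowInt hBsub X (by linarith)) hBm ?_
        intro α hα
        have h2 : t ≤ ‖W X (α 0) (α 1)‖ := hα.2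
        have hw0 : 0 < ‖W X (α 0) (α 1)‖ := lt_of_lt_of_le ht0 h2
        have h3 : ‖W X (α 0) (α 1)‖ ^ (2 * s) =
            ‖W X (α 0) (α 1)‖ ^ (2 * s - 4) * ‖W X (α 0) (α 1)‖ ^ 4 := by
          rw [← Real.rpow_natCast (‖W X (α 0) (α 1)‖) 4, ← Real.rpow_add hw0]
          congr 1
          push_cast
          ring
        rw [h3]
        have h4 : (X:ℝ) ^ (2 * s - 4) ≤ ‖W X (α 0) (α 1)‖ ^ (2 * s - 4) :=
          Real.rpow_le_rpow_of_nonpos hw0 (norm_W_le X _ _) (by linarith)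
        gcongr
      rw [integral_const_mul] at h1
      refine le_trans ?_ h1
      have h2 : (X:ℝ) ^ (2 * s - 4) = (m:ℝ) ^ (4 * s - 8) := by
        rw [hXr, ← Real.rpow_natCast, ← Real.rpow_mul hmpos.le]
        congr 1
        push_cast
        ring
      rw [h2]
      calc K * (m:ℝ) ^ δ * (X:ℝ) ^ (2 * s - 3)
          ≤ (1/8192) * (m:ℝ) ^ (1:ℝ) * (m:ℝ) ^ (4 * s - 6) := by
            rw [hX3]
            have h5 := Real.rpow_le_rpow_of_exponent_le hm1 hδ1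
            have h6 : K ≤ 1 / 8192 := by
              rw [hK]
              apply one_div_le_one_div_of_le (by positivity)
              nlinarith
            gcongr
        _ = (m:ℝ) ^ (4 * s - 8) * ((m:ℝ) ^ 3 / 8192) := by
            have h5 : (m:ℝ) ^ (1:ℝ) * (m:ℝ) ^ (4 * s - 6) = (m:ℝ) ^ (4 * s - 8) * (m:ℝ) ^ 3 := by
              rw [← Real.rpow_natCast (m:ℝ) 3, ← Real.rpow_add hmpos, ← Real.rpow_add hmpos]
              congr 1
              push_cast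
              ring
            rw [mul_assoc, h5]
            ring
        _ ≤ _ := by gcongr
  -- conclusion
  have hXε : (X:ℝ) ^ (δ / 4) = (m:ℝ) ^ (δ / 2) := by
    rw [hXr, ← Real.rpow_natCast, ← Real.rpow_mul hmpos.le]
    congr 1
    push_cast
    ring
  have hmδ : (m:ℝ) ^ δ = (m:ℝ) ^ (δ / 2) * (m:ℝ) ^ (δ / 2) := by
    rw [← Real.rpow_add hmpos]
    congr 1
    ring
  set R : ℝ := (X:ℝ) ^ s * (volume B).toReal + (X:ℝ) ^ (2 * s - 3) with hR
  have hR0 : 0 < R := by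
    have h1 : 0 < (X:ℝ) ^ (2 * s - 3) := Real.rpow_pos_of_pos hXpos _
    have h2 : 0 ≤ (X:ℝ) ^ s * (volume B).toReal := by positivity
    linarith
  have hsum : K * (m:ℝ) ^ δ * R ≤ 2 * L := by
    rw [hR, mul_add]
    linarith
  have hmm : 0 < (m:ℝ) ^ (δ / 2) := Real.rpow_pos_of_pos hmpos _
  rw [hXε]
  have h1 : C * (m:ℝ) ^ (δ / 2) * R ≤ |C| * (m:ℝ) ^ (δ / 2) * R := by
    gcongr
    exact le_abs_self C
  have h2 : 2 * |C| * ((m:ℝ) ^ (δ / 2) * R) < K * (m:ℝ) ^ (δ / 2) * ((m:ℝ) ^ (δ / 2) * R) := by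
    have : 0 < (m:ℝ) ^ (δ / 2) * R := by positivity
    gcongr
  have h3 : K * (m:ℝ) ^ (δ / 2) * ((m:ℝ) ^ (δ / 2) * R) = K * (m:ℝ) ^ δ * R := by
    rw [hmδ]
    ring
  nlinarith

end Pool.Agent.Helper76.EM
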