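import Pool.Agent.Helper76.EM.Neg
import Pool.Agent.Helper7.GPC.Div

/-!
# The sixth moment of quadratic Weyl sums
-/

open Finset MeasureTheory

namespace Pool.Agent.Helper76.EM

/-- triples -/
def trip (N : ℕ) : Finset (ℕ × ℕ × ℕ) := Icc 1 N ×ˢ Icc 1 N ×ˢ Icc 1 N

/-- the sum of a triple -/
def s1 (p : ℕ × ℕ × ℕ) : ℤ := (p.1 : ℤ) + p.2.1 + p.2.2

/-- the sum of the squares of a triple -/
def s2 (p : ℕ × ℕ × ℕ) : ℤ := (p.1 : ℤ) ^ 2 + (p.2.1 : ℤ) ^ 2 + (p.2.2 : ℤ) ^ 2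

lemma W_cube (N : ℕ) (α β : ℝ) :
    W N α β ^ 3 = TP (trip N) s1 (fun p => ee (s2 p * β)) α := by
  unfold TP trip W
  rw [Finset.sum_product, pow_succ, pow_two, Finset.sum_mul_sum, Finset.sum_mul]
  refine Finset.sum_congr rfl fun i _ => ?_
  rw [Finset.sum_product, Finset.sum_mul]
  refine Finset.sum_congr rfl fun j _ => ?_
  rw [Finset.mul_sum]
  refine Finset.sum_congr rfl fun k _ => ?_
  rw [← ee_add, ← ee_add, ← ee_add]
  congr 1
  unfold s1 s2
  push_cast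
  ring

/-- pairs of triples with equal sums and equal sums of squares -/
def sol (N : ℕ) : Finset ((ℕ × ℕ × ℕ) × (ℕ × ℕ × ℕ)) :=
  (trip N ×ˢ trip N).filter (fun p => s1 p.1 = s1 p.2 ∧ s2 p.1 = s2 p.2)

lemma sixth_eq (N : ℕ) :
    ∫ β in (0:ℝ)..1, ∫ α in (0:ℝ)..1, ‖W N α β‖ ^ 6 = ((sol N).card : ℝ) := by
  have h1 : ∀ β : ℝ, ((∫ α in (0:ℝ)..1, ‖W N α β‖ ^ 6 : ℝ) : ℂ) =
      ∑ i ∈ trip N, ∑ j ∈ trip N, (if s1 i = s1 j then (1:ℂ) else 0) * ee (((s2 i - s2 j : ℤ) : ℝ) * β) := by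
    intro β
    have h2 : ∫ α in (0:ℝ)..1, ‖W N α β‖ ^ 6 =
        ∫ α in (0:ℝ)..1, ‖TP (trip N) s1 (fun p => ee (s2 p * β)) α‖ ^ 2 := by
      refine intervalIntegral.integral_congr fun α _ => ?_
      rw [← W_cube, norm_pow]
      ring
    rw [h2, TP_parseval]
    refine Finset.sum_congr rfl fun i _ => Finset.sum_congr rfl fun j _ => ?_
    rw [← ee_sub, mul_comm]
    congr 2
    push_cast
    ring
  have h3 : ((∫ β in (0:ℝ)..1, ∫ α in (0:ℝ)..1, ‖W N α β‖ ^ 6 : ℝ) : ℂ) = (((sol N).card : ℝ) : ℂ) := by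
    rw [← intervalIntegral.integral_ofReal]
    simp_rw [h1]
    rw [intervalIntegral.integral_finsetSum]
    · have h4 : ∀ i ∈ trip N, ∫ β in (0:ℝ)..1, ∑ j ∈ trip N,
          (if s1 i = s1 j then (1:ℂ) else 0) * ee (((s2 i - s2 j : ℤ) : ℝ) * β) =
          ∑ j ∈ trip N, if s1 i = s1 j ∧ s2 i = s2 j then (1:ℂ) else 0 := by
        intro i _
        rw [intervalIntegral.integral_finsetSum]
        · refine Finset.sum_congr rfl fun j _ => ?_
          rw [intervalIntegral.integral_const_mul, orth]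
          simp only [sub_eq_zero]
          split_ifs with a b c <;> simp_all
        · intro j _
          apply Continuous.intervalIntegrable
          have := ee_continuous
          fun_prop
      rw [Finset.sum_congr rfl h4]
      unfold sol
      rw [Finset.card_filter, Finset.sum_product]
      push_cast
      refine Finset.sum_congr rfl fun i _ => Finset.sum_congr rfl fun j _ => ?_
      split_ifs <;> simp
    · intro i _
      apply Continuous.intervalIntegrable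
      have := ee_continuous
      fun_prop
  exact_mod_cast h3

/-- the key factorization -/
lemma key_fact {x1 x2 x3 y1 y2 y3 : ℤ} (h1 : x1 + x2 + x3 = y1 + y2 + y3)
    (h2 : x1 ^ 2 + x2 ^ 2 + x3 ^ 2 = y1 ^ 2 + y2 ^ 2 + y3 ^ 2) :
    (x1 - y3) * (x2 - y3) = (y1 - x3) * (y2 - x3) := by
  have h3 : x1 + x2 - y3 = y1 + y2 - x3 := by linarith
  have h4 : x1 ^ 2 + x2 ^ 2 - y3 ^ 2 = y1 ^ 2 + y2 ^ 2 - x3 ^ 2 := by linarith
  have h5 : (x1 + x2 - y3) ^ 2 = (y1 + y2 - x3) ^ 2 := by rw [h3]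
  have h6 : 2 * ((x1 - y3) * (x2 - y3)) = (x1 + x2 - y3) ^ 2 - (x1 ^ 2 + x2 ^ 2 - y3 ^ 2) := by ring
  have h7 : 2 * ((y1 - x3) * (y2 - x3)) = (y1 + y2 - x3) ^ 2 - (y1 ^ 2 + y2 ^ 2 - x3 ^ 2) := by ring
  have h8 : 2 * ((x1 - y3) * (x2 - y3)) = 2 * ((y1 - x3) * (y2 - x3)) := by
    rw [h6, h7, h5, h4]
  linarith

/-- integer divisors -/
def zdiv (n : ℤ) : Finset ℤ :=
  (n.natAbs.divisors.image fun d : ℕ => (d : ℤ)) ∪ (n.natAbs.divisors.image fun d : ℕ => -(d : ℤ))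

lemma mem_zdiv {n d : ℤ} (hn : n ≠ 0) (h : d ∣ n) : d ∈ zdiv n := by
  unfold zdiv
  rw [mem_union, mem_image, mem_image]
  have h1 : d.natAbs ∈ n.natAbs.divisors :=
    Nat.mem_divisors.2 ⟨Int.natAbs_dvd_natAbs.2 h, Int.natAbs_ne_zero.2 hn⟩
  rcases Int.natAbs_eq d with h2 | h2
  · exact Or.inl ⟨_, h1, h2.symm⟩
  · exact Or.inr ⟨_, h1, h2.symm⟩

lemma card_zdiv_le (n : ℤ) : (zdiv n).card ≤ 2 * n.natAbs.divisors.card := by
  unfold zdiv
  refine (card_union_le _ _).trans ?_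
  have h1 := card_image_le (s := n.natAbs.divisors) (f := fun d : ℕ => (d : ℤ))
  have h2 := card_image_le (s := n.natAbs.divisors) (f := fun d : ℕ => -(d : ℤ))
  omega

/-- the product attached to `(y₁, y₂, x₃)` -/
def PP (t : ℕ × ℕ × ℕ) : ℤ := ((t.1 : ℤ) - t.2.2) * ((t.2.1 : ℤ) - t.2.2)

/-- the number of solutions -/
lemma sol_card_le {N T : ℕ} (hT : ∀ n : ℕ, n ≠ 0 → n ≤ N ^ 2 → n.divisors.card ≤ T) :
    (sol N).card ≤ 4 * N ^ 3 + N ^ 3 * (2 * T) := by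
  classical
  set A := (sol N).filter (fun p => PP (p.2.1, p.2.2.1, p.1.2.2) = 0) with hA
  set B := (sol N).filter (fun p => ¬ PP (p.2.1, p.2.2.1, p.1.2.2) = 0) with hB
  have hsplit : (sol N).card = A.card + B.card := by
    rw [hA, hB]
    exact (Finset.card_filter_add_card_filter_not _).symm
  have htrip : (trip N).card = N ^ 3 := by
    unfold trip
    rw [Finset.card_product, Finset.card_product, Nat.card_Icc]
    simp
    ring
  have hmem : ∀ p ∈ sol N, (p.1.1 ∈ Icc 1 N ∧ p.1.2.1 ∈ Icc 1 N ∧ p.1.2.2 ∈ Icc 1 N) ∧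
      (p.2.1 ∈ Icc 1 N ∧ p.2.2.1 ∈ Icc 1 N ∧ p.2.2.2 ∈ Icc 1 N) ∧
      s1 p.1 = s1 p.2 ∧ s2 p.1 = s2 p.2 := by
    intro p hp
    unfold sol trip at hp
    simp only [Finset.mem_filter, Finset.mem_product] at hp
    exact ⟨hp.1.1, hp.1.2, hp.2⟩
  have hAcard : A.card ≤ 4 * N ^ 3 := by
    have h1 : A.card ≤ (((Finset.univ : Finset Bool) ×ˢ (Finset.univ : Finset Bool)) ×ˢ trip N).card := by
      refine Finset.card_le_card_of_injOn
        (fun p => ((decide (p.2.1 = p.1.2.2), decide (p.1.1 = p.2.2.2)),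
          (p.1.2.2, p.2.2.2, if p.2.1 = p.1.2.2 then p.2.2.1 else p.2.1))) ?_ ?_
      · intro p hp
        have hp1 : p ∈ A := hp
        rw [hA, Finset.mem_filter] at hp1
        obtain ⟨⟨a1, a2, a3⟩, ⟨b1, b2, b3⟩, c1, c2⟩ := hmem p hp1.1
        simp only [Finset.coe_product, Set.mem_prod, Finset.mem_coe, Finset.mem_univ, true_and]
        unfold trip
        simp only [Finset.mem_product]
        refine ⟨a3, b3, ?_⟩
        split_ifs
        · exact b2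
        · exact b1
      · intro p hp q hq hpq
        have hp1 : p ∈ A := hp
        have hq1 : q ∈ A := hq
        rw [hA, Finset.mem_filter] at hp1 hq1
        obtain ⟨_, _, hp2, hp3⟩ := hmem p hp1.1
        obtain ⟨_, _, hq2, hq3⟩ := hmem q hq1.1
        have hp4 := hp1.2
        have hq4 := hq1.2
        obtain ⟨⟨x1, x2, x3⟩, y1, y2, y3⟩ := p
        obtain ⟨⟨u1, u2, u3⟩, v1, v2, v3⟩ := q
        unfold s1 at hp2 hq2
        unfold s2 at hp3 hq3
        unfold PP at hp4 hq4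
        simp only at hp2 hq2 hp3 hq3 hp4 hq4
        simp only [Prod.mk.injEq, decide_eq_decide] at hpq
        obtain ⟨⟨e1, e2⟩, e3, e4, e5⟩ := hpq
        have kp := key_fact hp2 hp3
        have kq := key_fact hq2 hq3
        rw [hp4] at kp
        rw [hq4] at kq
        have kp' := mul_eq_zero.1 kp
        have kq' := mul_eq_zero.1 kq
        have hp4' := mul_eq_zero.1 hp4
        have hq4' := mul_eq_zero.1 hq4
        subst e3 e4
        have hfin : x1 = u1 ∧ x2 = u2 ∧ y1 = v1 ∧ y2 = v2 := by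
          by_cases c1 : y1 = x3
          · have d1 : v1 = x3 := e1.1 c1
            rw [if_pos c1, if_pos d1] at e5
            by_cases c2 : x1 = y3
            · have d2 : u1 = y3 := e2.1 c2
              omega
            · have d2 : u1 ≠ y3 := fun h => c2 (e2.2 h)
              omega
          · have d1 : v1 ≠ x3 := fun h => c1 (e1.2 h)
            rw [if_neg c1, if_neg d1] at e5
            by_cases c2 : x1 = y3
            · have d2 : u1 = y3 := e2.1 c2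
              omega
            · have d2 : u1 ≠ y3 := fun h => c2 (e2.2 h)
              omega
        obtain ⟨rfl, rfl, rfl, rfl⟩ := hfin
        rfl
    refine h1.trans (le_of_eq ?_)
    rw [Finset.card_product, Finset.card_product, htrip]
    simp
  have hBcard : B.card ≤ N ^ 3 * (2 * T) := by
    have h1 : B.card ≤ (((trip N).filter (fun t => PP t ≠ 0)).sigma (fun t => zdiv (PP t))).card := by
      refine Finset.card_le_card_of_injOn
        (fun p => (⟨(p.2.1, p.2.2.1, p.1.2.2), (p.1.1 : ℤ) - p.2.2.2⟩ : Σ _ : ℕ × ℕ × ℕ, ℤ)) ?_ ?_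
      · intro p hp
        have hp1 : p ∈ B := hp
        rw [hB, Finset.mem_filter] at hp1
        obtain ⟨⟨a1, a2, a3⟩, ⟨b1, b2, b3⟩, c1, c2⟩ := hmem p hp1.1
        rw [Finset.mem_coe, Finset.mem_sigma]
        refine ⟨Finset.mem_filter.2 ⟨?_, hp1.2⟩, ?_⟩
        · unfold trip
          simp only [Finset.mem_product]
          exact ⟨b1, b2, a3⟩
        · apply mem_zdiv hp1.2
          have := key_fact c1 c2
          exact ⟨_, this.symm⟩
      · intro p hp q hq hpq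
        have hp1 : p ∈ B := hp
        have hq1 : q ∈ B := hq
        rw [hB, Finset.mem_filter] at hp1 hq1
        obtain ⟨_, _, hp2, hp3⟩ := hmem p hp1.1
        obtain ⟨_, _, hq2, hq3⟩ := hmem q hq1.1
        have hp4 := hp1.2
        obtain ⟨⟨x1, x2, x3⟩, y1, y2, y3⟩ := p
        obtain ⟨⟨u1, u2, u3⟩, v1, v2, v3⟩ := q
        unfold s1 at hp2 hq2
        unfold s2 at hp3 hq3
        unfold PP at hp4
        simp only at hp2 hq2 hp3 hq3 hp4
        simp only [Sigma.mk.injEq, Prod.mk.injEq, heq_eq_eq] at hpq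
        obtain ⟨⟨e1, e2, e3⟩, e4⟩ := hpq
        subst e1 e2 e3
        have kp := key_fact hp2 hp3
        have kq := key_fact hq2 hq3
        have hne : (x1:ℤ) - y3 ≠ 0 := by
          intro h0
          apply hp4
          rw [← kp, h0, zero_mul]
        have h5 : (x2:ℤ) - y3 = u2 - v3 := by
          apply mul_left_cancel₀ hne
          rw [kp, e4, kq]
        have hfin : x1 = u1 ∧ x2 = u2 ∧ y3 = v3 := by omega
        obtain ⟨rfl, rfl, rfl⟩ := hfin
        rfl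
    refine h1.trans ?_
    rw [Finset.card_sigma]
    calc ∑ t ∈ (trip N).filter (fun t => PP t ≠ 0), (zdiv (PP t)).card
        ≤ ∑ t ∈ (trip N).filter (fun t => PP t ≠ 0), 2 * T := by
          refine Finset.sum_le_sum fun t ht => ?_
          rw [Finset.mem_filter] at ht
          obtain ⟨ht1, ht2⟩ := ht
          refine (card_zdiv_le _).trans (Nat.mul_le_mul_left _ ?_)
          apply hT _ (Int.natAbs_ne_zero.2 ht2)
          unfold trip at ht1
          simp only [Finset.mem_product, Finset.mem_Icc] at ht1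
          obtain ⟨⟨a1, a2⟩, ⟨b1, b2⟩, c1, c2⟩ := ht1
          unfold PP
          rw [Int.natAbs_mul, pow_two]
          apply Nat.mul_le_mul <;> omega
      _ = ((trip N).filter (fun t => PP t ≠ 0)).card * (2 * T) := by
          rw [Finset.sum_const, smul_eq_mul]
      _ ≤ (trip N).card * (2 * T) := Nat.mul_le_mul_right _ (Finset.card_filter_le _ _)
      _ = N ^ 3 * (2 * T) := by rw [htrip]
  rw [hsplit]
  exact Nat.add_le_add hAcard hBcard

/-- **The critical mean value**: `J_{3,2}(N) ≪ N^{3+ε}`. -/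
theorem sol_bound {ε : ℝ} (hε : 0 < ε) : ∃ C : ℝ, 0 < C ∧ ∀ N : ℕ, 1 ≤ N →
    ((sol N).card : ℝ) ≤ C * (N:ℝ) ^ (3 + ε) := by
  obtain ⟨C, hC1, hC⟩ := Pool.Agent.Helper7.GPC.card_divisors_le (ε := ε / 2) (by linarith)
  refine ⟨6 + 2 * C, by linarith, fun N hN => ?_⟩
  have hNr : (1:ℝ) ≤ N := by exact_mod_cast hN
  have hNpos : (0:ℝ) < N := by linarith
  set T : ℕ := ⌈C * (N:ℝ) ^ ε⌉₊ with hT
  have hTr : ∀ n : ℕ, n ≠ 0 → n ≤ N ^ 2 → n.divisors.card ≤ T := by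
    intro n hn hn2
    have h1 := hC n hn
    have h2 : (n:ℝ) ≤ (N:ℝ) ^ 2 := by exact_mod_cast hn2
    have h3 : (n:ℝ) ^ (ε / 2) ≤ (N:ℝ) ^ ε := by
      calc (n:ℝ) ^ (ε / 2) ≤ ((N:ℝ) ^ 2) ^ (ε / 2) :=
            Real.rpow_le_rpow (Nat.cast_nonneg _) h2 (by linarith)
        _ = (N:ℝ) ^ ε := by
            rw [← Real.rpow_natCast, ← Real.rpow_mul hNpos.le]
            congr 1
            push_cast
            ring
    have h4 : (n.divisors.card : ℝ) ≤ (T:ℝ) :=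
      (h1.trans (by gcongr)).trans (Nat.le_ceil _)
    exact_mod_cast h4
  have h1 := sol_card_le hTr
  have h2 : ((sol N).card : ℝ) ≤ 4 * (N:ℝ) ^ 3 + (N:ℝ) ^ 3 * (2 * T) := by exact_mod_cast h1
  have h3 : (T:ℝ) ≤ C * (N:ℝ) ^ ε + 1 := (Nat.ceil_lt_add_one (by positivity)).le
  have h4 : (1:ℝ) ≤ (N:ℝ) ^ ε := Real.one_le_rpow hNr hε.le
  have h5 : (N:ℝ) ^ (3 + ε) = (N:ℝ) ^ 3 * (N:ℝ) ^ ε := by
    rw [Real.rpow_add hNpos]
    congr 1
    rw [← Real.rpow_natCast]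
    norm_num
  rw [h5]
  calc ((sol N).card : ℝ) ≤ 4 * (N:ℝ) ^ 3 + (N:ℝ) ^ 3 * (2 * T) := h2
    _ ≤ 4 * (N:ℝ) ^ 3 + (N:ℝ) ^ 3 * (2 * (C * (N:ℝ) ^ ε + 1)) := by gcongr
    _ = (N:ℝ) ^ 3 * (6 + 2 * C * (N:ℝ) ^ ε) := by ring
    _ ≤ (N:ℝ) ^ 3 * (6 * (N:ℝ) ^ ε + 2 * C * (N:ℝ) ^ ε) := by
        gcongr
        linarith
    _ = (6 + 2 * C) * ((N:ℝ) ^ 3 * (N:ℝ) ^ ε) := by ring

/-- **The extended bound for `k = 2` and `s ≥ 3`.** -/
theorem pos_k2 {s : ℝ} (hs : 3 ≤ s) {ε : ℝ} (hε : 0 < ε) : ∃ C : ℝ, 0 < C ∧ ∀ N : ℕ, 1 ≤ N →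
    ∀ B : Set (Fin 2 → ℝ), MeasurableSet B → B ⊆ Set.pi Set.univ (fun _ => Set.Ico (0:ℝ) 1) →
    ∫ α in B, ‖W N (α 0) (α 1)‖ ^ (2 * s) ≤ C * (N:ℝ) ^ ε * (N:ℝ) ^ (2 * s - 3) := by
  obtain ⟨C, hC0, hC⟩ := sol_bound hε
  refine ⟨C, hC0, fun N hN B hB hB1 => ?_⟩
  have hNr : (1:ℝ) ≤ N := by exact_mod_cast hN
  have hNpos : (0:ℝ) < N := by linarith
  have hcube : slab (Set.Ico 0 1) = Set.pi Set.univ (fun _ : Fin 2 => Set.Ico (0:ℝ) 1) := by
    apply Set.Subset.antisymm (slab_subset subset_rfl)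
    intro α hα
    exact ⟨hα 0 (Set.mem_univ _), hα 1 (Set.mem_univ _)⟩
  have h6 : ∫ α in slab (Set.Ico 0 1), ‖W N (α 0) (α 1)‖ ^ 6 = ((sol N).card : ℝ) := by
    have hint : IntegrableOn (fun z : ℝ × ℝ => ‖W N z.1 z.2‖ ^ 6) (Set.Ico (0:ℝ) 1 ×ˢ Set.Ico (0:ℝ) 1)
        (volume.prod volume) := by
      refine intOn_of_bdd subset_rfl (K := (N:ℝ) ^ 6) ?_ ?_
      · exact ((W_continuous N).norm.pow 6).measurable
      · intro z
        rw [abs_of_nonneg (by positivity)]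
        exact pow_le_pow_left₀ (norm_nonneg _) (norm_W_le N _ _) 6
    rw [slab_integral _ (fun z : ℝ × ℝ => ‖W N z.1 z.2‖ ^ 6) hint, ← sixth_eq,
      intervalIntegral.integral_of_le zero_le_one]
    exact integral_Ico_eq_integral_Ioo.trans integral_Ioc_eq_integral_Ioo.symm
  have hle : ∀ α : Fin 2 → ℝ, ‖W N (α 0) (α 1)‖ ^ (2 * s) ≤
      (N:ℝ) ^ (2 * s - 6) * ‖W N (α 0) (α 1)‖ ^ 6 := by
    intro α
    rcases (norm_nonneg (W N (α 0) (α 1))).eq_or_lt with h0 | h0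
    · rw [← h0, Real.zero_rpow (by linarith)]
      positivity
    · have h1 : ‖W N (α 0) (α 1)‖ ^ (2 * s) =
          ‖W N (α 0) (α 1)‖ ^ (2 * s - 6) * ‖W N (α 0) (α 1)‖ ^ 6 := by
        rw [← Real.rpow_natCast (‖W N (α 0) (α 1)‖) 6, ← Real.rpow_add h0]
        congr 1
        push_cast
        ring
      rw [h1]
      have := Real.rpow_le_rpow (norm_nonneg _) (norm_W_le N (α 0) (α 1)) (show 0 ≤ 2 * s - 6 by linarith)
      gcongr
  calc ∫ α in B, ‖W N (α 0) (α 1)‖ ^ (2 * s)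
      ≤ ∫ α in B, (N:ℝ) ^ (2 * s - 6) * ‖W N (α 0) (α 1)‖ ^ 6 :=
        setIntegral_mono_on (rpowInt hB1 N (by linarith)) ((powInt hB1 N 6).const_mul _) hB
          (fun α _ => hle α)
    _ ≤ ∫ α in slab (Set.Ico 0 1), (N:ℝ) ^ (2 * s - 6) * ‖W N (α 0) (α 1)‖ ^ 6 := by
        rw [hcube]
        refine setIntegral_mono_set ((powInt subset_rfl N 6).const_mul _) ?_ ?_
        · exact Filter.Eventually.of_forall fun α => by positivity
        · exact Filter.Eventually.of_forall fun α hα => hB1 hα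
    _ = (N:ℝ) ^ (2 * s - 6) * ((sol N).card : ℝ) := by rw [integral_const_mul, h6]
    _ ≤ (N:ℝ) ^ (2 * s - 6) * (C * (N:ℝ) ^ (3 + ε)) := by
        gcongr
        exact hC N hN
    _ = C * ((N:ℝ) ^ (2 * s - 6) * (N:ℝ) ^ (3 + ε)) := by ring
    _ = C * ((N:ℝ) ^ ε * (N:ℝ) ^ (2 * s - 3)) := by
        rw [← Real.rpow_add hNpos, ← Real.rpow_add hNpos]
        congr 2
        ring
    _ = C * (N:ℝ) ^ ε * (N:ℝ) ^ (2 * s - 3) := by ring

end Pool.Agent.Helper76.EM
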