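import Pool.Agent.Helper76.EM.Fourier
import Pool.Agent.Helper76.EM.Farey

/-!
# Sets `{α : α₀ ∈ [0,1), α₁ ∈ E}` and integrals over them
-/

open Finset MeasureTheory

namespace Pool.Agent.Helper76.EM

/-- `{α : α₀ ∈ [0,1), α₁ ∈ E}` -/
def slab (E : Set ℝ) : Set (Fin 2 → ℝ) := {α | α 0 ∈ Set.Ico (0:ℝ) 1 ∧ α 1 ∈ E}

lemma slab_eq (E : Set ℝ) :
    slab E = (MeasurableEquiv.finTwoArrow (α := ℝ)) ⁻¹' (Set.Ico (0:ℝ) 1 ×ˢ E) := by
  ext α
  rfl

lemma slab_meas {E : Set ℝ} (hE : MeasurableSet E) : MeasurableSet (slab E) := by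
  rw [slab_eq]
  exact (MeasurableEquiv.finTwoArrow (α := ℝ)).measurable (measurableSet_Ico.prod hE)

lemma slab_subset {E : Set ℝ} (hE : E ⊆ Set.Ico 0 1) :
    slab E ⊆ Set.pi Set.univ (fun _ => Set.Ico (0:ℝ) 1) := by
  intro α hα i _
  fin_cases i
  · exact hα.1
  · exact hE hα.2

/-- integrals over measurable subsets of the cube as iterated integrals -/
lemma slab_integral (E : Set ℝ) (g : ℝ × ℝ → ℝ)
    (hg : IntegrableOn g (Set.Ico (0:ℝ) 1 ×ˢ E) (volume.prod volume)) :
    ∫ α in slab E, g (α 0, α 1) = ∫ β in E, ∫ a in (0:ℝ)..1, g (a, β) := by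
  have h1 := (volume_preserving_finTwoArrow ℝ).setIntegral_preimage_emb
    (MeasurableEquiv.finTwoArrow (α := ℝ)).measurableEmbedding g (Set.Ico (0:ℝ) 1 ×ˢ E)
  rw [← slab_eq] at h1
  have h2 : ∫ α in slab E, g (α 0, α 1) = ∫ z in Set.Ico (0:ℝ) 1 ×ˢ E, g z ∂(volume.prod volume) := h1
  rw [h2, ← Measure.prod_restrict, integral_prod_symm]
  · refine integral_congr_ae (Filter.Eventually.of_forall fun β => ?_)
    simp only
    rw [intervalIntegral.integral_of_le zero_le_one]
    exact integral_Ico_eq_integral_Ioo.trans integral_Ioc_eq_integral_Ioo.symm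
  · rw [Measure.prod_restrict]
    exact hg

lemma slab_integrable (E : Set ℝ) (g : ℝ × ℝ → ℝ)
    (hg : IntegrableOn g (Set.Ico (0:ℝ) 1 ×ˢ E) (volume.prod volume)) :
    IntegrableOn (fun α : Fin 2 → ℝ => g (α 0, α 1)) (slab E) := by
  have h1 := (volume_preserving_finTwoArrow ℝ).integrableOn_comp_preimage
    (MeasurableEquiv.finTwoArrow (α := ℝ)).measurableEmbedding (f := g) (s := Set.Ico (0:ℝ) 1 ×ˢ E)
  rw [← slab_eq] at h1
  exact h1.2 hg

lemma inner_integrable (E : Set ℝ) (g : ℝ × ℝ → ℝ)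
    (hg : IntegrableOn g (Set.Ico (0:ℝ) 1 ×ˢ E) (volume.prod volume)) :
    IntegrableOn (fun β => ∫ a in (0:ℝ)..1, g (a, β)) E := by
  have h1 : Integrable g ((volume.restrict (Set.Ico (0:ℝ) 1)).prod (volume.restrict E)) := by
    rw [Measure.prod_restrict]
    exact hg
  have h2 := h1.integral_prod_right
  refine h2.congr (Filter.Eventually.of_forall fun β => ?_)
  simp only
  rw [intervalIntegral.integral_of_le zero_le_one]
  exact integral_Ico_eq_integral_Ioo.trans integral_Ioc_eq_integral_Ioo.symm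

lemma slab_volume (E : Set ℝ) : volume (slab E) = volume E := by
  rw [slab_eq, (volume_preserving_finTwoArrow ℝ).measure_preimage_equiv]
  change (volume.prod volume) (Set.Ico (0:ℝ) 1 ×ˢ E) = _
  rw [Measure.prod_prod, Real.volume_Ico]
  simp

lemma W_continuous (N : ℕ) : Continuous (fun z : ℝ × ℝ => W N z.1 z.2) := by
  unfold W
  have := ee_continuous
  fun_prop

/-- bounded measurable functions are integrable over bounded slabs -/
lemma intOn_of_bdd {E : Set ℝ} (hE1 : E ⊆ Set.Ico 0 1) {g : ℝ × ℝ → ℝ}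
    (hg : Measurable g) {K : ℝ} (hK : ∀ z, |g z| ≤ K) :
    IntegrableOn g (Set.Ico (0:ℝ) 1 ×ˢ E) (volume.prod volume) := by
  have hfin : (volume.prod volume) (Set.Ico (0:ℝ) 1 ×ˢ E) ≠ ⊤ := by
    rw [Measure.prod_prod, Real.volume_Ico]
    have h1 : volume E ≤ 1 := by
      refine (measure_mono hE1).trans ?_
      rw [Real.volume_Ico]
      simp
    have h2 : ENNReal.ofReal (1 - 0) * volume E ≤ 1 := by
      simp only [sub_zero, ENNReal.ofReal_one, one_mul]
      exact h1
    exact ne_top_of_le_ne_top ENNReal.one_ne_top h2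
  refine Integrable.mono' (g := fun _ => K) ?_ hg.aestronglyMeasurable (Filter.Eventually.of_forall hK)
  exact integrableOn_const hfin

/-- the phase of the frozen statements for `k = 2` -/
lemma phase_eq (α : Fin 2 → ℝ) (N : ℕ) :
    ∑ x ∈ Finset.Icc 1 N, Complex.exp (2 * (Real.pi:ℂ) * Complex.I *
              ∑ j : Fin 2, (α j : ℂ) * (x:ℂ) ^ ((j:ℕ) + 1)) = W N (α 0) (α 1) := by
  unfold W ee
  refine Finset.sum_congr rfl fun x _ => ?_
  congr 1
  rw [Fin.sum_univ_two]
  push_cast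
  simp only [Fin.val_zero, Fin.val_one]
  ring

end Pool.Agent.Helper76.EM
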